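import Pool.Agent.T9h66.SW.Base

/-!
# Assembly of a group topology with a stationary strategy
-/

set_option autoImplicit false

universe u

namespace Pool.Agent.T9h66.SW

open Cardinal Topology Filter Pool.Agent.H376R3.PC

/-- stationary strategies with limits along members of the class -/
def WinC (𝒞 : Set (Filter ℕ)) (X : Type u) [TopologicalSpace X] : Prop :=
  ∃ s : Set X → X, (∀ U : Set X, IsOpen U → U.Nonempty → s U ∈ U) ∧
    ∀ U : ℕ → Set X, (∀ n, IsOpen (U n) ∧ (U n).Nonempty) →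
      ∃ F ∈ 𝒞, ∃ x, Tendsto (fun n => s (U n)) F (𝓝 x)

/-- A homomorphism to a power of the circle together with a family of points which is compact with
respect to the class and hits the image. -/
structure PieceS (𝒞 : Set (Filter ℕ)) (G : Type u) [AddCommGroup G] where
  X : Type u
  j : G →+ (X → T)
  Ξ : Type u
  S : Ξ → G
  conv : ∀ u : ℕ → Ξ, ∀ F ∈ 𝒞, ∃ F' ∈ 𝒞, F' ≤ F ∧ ∃ ξ, ∀ a,
    Tendsto (fun n => j (S (u n)) a) F' (𝓝 (j (S ξ) a))
  hit : ∀ A : Set X, A.Countable → ∀ x : G, ∃ ξ, ∀ a ∈ A, j (S ξ) a = j x a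

/-- the trivial piece -/
noncomputable def PieceS.triv (𝒞 : Set (Filter ℕ)) (G : Type u) [AddCommGroup G] :
    PieceS 𝒞 G where
  X := PEmpty
  j := 0
  Ξ := PUnit
  S := fun _ => 0
  conv := fun _ F hF => ⟨F, hF, le_rfl, PUnit.unit, fun a => a.elim⟩
  hit := fun _ _ _ => ⟨PUnit.unit, fun a _ => a.elim⟩

theorem finite_const {𝒞 : Set (Filter ℕ)} (h𝒞 : Cls 𝒞) {R : Type*} [Finite R] (r : ℕ → R)
    (F : Filter ℕ) (hF : F ∈ 𝒞) : ∃ F' ∈ 𝒞, F' ≤ F ∧ ∃ r0, ∀ᶠ n in F', r n = r0 := by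
  classical
  obtain ⟨e, he⟩ := Countable.exists_injective_nat R
  obtain ⟨F', hF', hle, hb⟩ := h𝒞.sc F hF (fun n k => decide (e (r n) = k))
  refine ⟨F', hF', hle, ?_⟩
  by_contra hcon
  push Not at hcon
  have h1 : ∀ r0 : R, ∀ᶠ n in F', ¬ (r n = r0) := by
    intro r0
    obtain ⟨b, hb⟩ := hb (e r0)
    cases b
    · filter_upwards [hb] with n hn h
      rw [h] at hn
      simp at hn
    · exfalso
      apply hcon r0
      filter_upwards [hb] with n hn
      exact not_not.2 (he (by simpa using hn))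
  have h2 : ∀ᶠ n in F', ∀ r0 : R, ¬ (r n = r0) := Filter.eventually_all.2 h1
  have := h𝒞.neBot F' hF'
  obtain ⟨n, hn⟩ := h2.exists
  exact hn (r n) rfl

theorem assemblyS {𝒞 : Set (Filter ℕ)} (h𝒞 : Cls 𝒞) {G : Type u} [AddCommGroup G] {I : Type}
    [Fintype I] (P : I → PieceS 𝒞 G)
    (hcross : ∀ i i', i ≠ i' → ∀ ξ, (P i').j ((P i).S ξ) = 0)
    (X0 : Type u) (j0 : G →+ (X0 → T)) (R : Set G) (hR : R.Finite)
    (hR2 : ∀ x, ∃ r ∈ R, j0 r = j0 x) (h0 : ∀ i ξ, j0 ((P i).S ξ) = 0)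
    (hinj : ∀ x, (∀ i, (P i).j x = 0) → j0 x = 0 → x = 0) :
    ∃ τ : TopologicalSpace G, @IsTopologicalAddGroup G τ _ ∧ @T2Space G τ ∧ @WinC 𝒞 G τ := by
  classical
  let Y : Type u := (Σ i, (P i).X) ⊕ X0
  let F : G →+ (Y → T) :=
    { toFun := fun x y => Sum.elim (fun a : Σ i, (P i).X => (P a.1).j x a.2) (fun a => j0 x a) y
      map_zero' := by
        funext y
        rcases y with ⟨i, a⟩ | a <;> simp
      map_add' := by
        intro x x'
        funext y
        rcases y with ⟨i, a⟩ | a <;> simp }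
  have hF1 : ∀ x i a, F x (Sum.inl ⟨i, a⟩) = (P i).j x a := fun _ _ _ => rfl
  have hF2 : ∀ x a, F x (Sum.inr a) = j0 x a := fun _ _ => rfl
  have hFi : Function.Injective F := by
    rw [injective_iff_map_eq_zero]
    intro x hx
    apply hinj x
    · intro i
      funext a
      rw [← hF1 x i a, hx]; rfl
    · funext a
      rw [← hF2 x a, hx]; rfl
  let τ : TopologicalSpace G := TopologicalSpace.induced F inferInstance
  have hind : IsInducing F := ⟨rfl⟩
  have hemb : IsEmbedding F := ⟨hind, hFi⟩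
  refine ⟨τ, topologicalAddGroup_induced F, hemb.t2Space, ?_⟩
  have hO : ∀ U : Set G, ∃ p : G × Finset Y, IsOpen U → U.Nonempty →
      ∀ y, (∀ a ∈ p.2, F y a = F p.1 a) → y ∈ U := by
    intro U
    by_cases hU : IsOpen U ∧ U.Nonempty
    swap
    · exact ⟨(0, ∅), fun h h' => absurd ⟨h, h'⟩ hU⟩
    obtain ⟨hU, x, hx⟩ := hU
    obtain ⟨O, hO, hOU⟩ := isOpen_induced_iff.1 hU
    have hxO : F x ∈ O := by
      have : x ∈ F ⁻¹' O := by rw [hOU]; exact hx
      exact this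
    obtain ⟨Fn, u, hu, hsub⟩ := isOpen_pi_iff.1 hO (F x) hxO
    refine ⟨(x, Fn), fun _ _ y hy => ?_⟩
    rw [← hOU]
    apply hsub
    intro a ha
    rw [hy a ha]
    exact (hu a ha).2
  choose p hp using hO
  choose r hrR hr0 using fun U => hR2 (p U).1
  have hξ : ∀ (U : Set G) (i : I), ∃ ξ, ∀ a, (Sum.inl ⟨i, a⟩ : Y) ∈ (p U).2 →
      (P i).j ((P i).S ξ) a = (P i).j ((p U).1 - r U) a := by
    intro U i
    obtain ⟨ξ, hξ⟩ := (P i).hit {a | (Sum.inl ⟨i, a⟩ : Y) ∈ (p U).2}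
      ((p U).2.countable_toSet.preimage (f := fun a => (Sum.inl ⟨i, a⟩ : Y)) (by
        intro a b hab
        have h1 := Sum.inl.inj hab
        exact eq_of_heq (Sigma.mk.inj h1).2)) ((p U).1 - r U)
    exact ⟨ξ, fun a ha => hξ a ha⟩
  choose ξ hξ using hξ
  have hfi : ∀ (z : G) (w : ∀ i, (P i).Ξ) i a, F (z + ∑ i, (P i).S (w i)) (Sum.inl ⟨i, a⟩) =
      (P i).j z a + (P i).j ((P i).S (w i)) a := by
    intro z w i a
    rw [hF1]
    simp only [map_add, map_sum, Pi.add_apply, Finset.sum_apply]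
    congr 1
    rw [Finset.sum_eq_single i]
    · intro i' _ hne
      rw [hcross i' i hne]; rfl
    · intro h; exact absurd (Finset.mem_univ i) h
  have hf0 : ∀ (z : G) (w : ∀ i, (P i).Ξ) a, F (z + ∑ i, (P i).S (w i)) (Sum.inr a) = j0 z a := by
    intro z w a
    rw [hF2]
    simp only [map_add, map_sum, Pi.add_apply, Finset.sum_apply]
    rw [Finset.sum_eq_zero]
    · simp
    · intro i _
      rw [h0]; rfl
  let s : Set G → G := fun U => r U + ∑ i, (P i).S (ξ U i)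
  refine ⟨s, ?_, ?_⟩
  · intro U hU hne
    apply hp U hU hne
    intro y hy
    rcases y with ⟨i, a⟩ | a
    · show F (r U + ∑ i, (P i).S (ξ U i)) _ = _
      rw [hfi, hξ U i a hy, hF1]
      simp
    · show F (r U + ∑ i, (P i).S (ξ U i)) _ = _
      rw [hf0, hF2]
      exact congrFun (hr0 U) a
  · intro U hU
    obtain ⟨F0, hF0⟩ := h𝒞.ne
    have : Finite R := hR
    obtain ⟨F1, hF1', hle1, r0, hr0'⟩ := finite_const h𝒞 (fun n => (⟨r (U n), hrR (U n)⟩ : R)) F0 hF0
    have hind2 : ∀ t : Finset I, ∃ F' ∈ 𝒞, F' ≤ F1 ∧ ∀ i ∈ t, ∃ w : (P i).Ξ, ∀ a,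
        Tendsto (fun n => (P i).j ((P i).S (ξ (U n) i)) a) F' (𝓝 ((P i).j ((P i).S w) a)) := by
      intro t
      induction t using Finset.induction_on with
      | empty => exact ⟨F1, hF1', le_rfl, fun i hi => absurd hi (Finset.notMem_empty i)⟩
      | insert i t _ ih =>
        obtain ⟨F', hF', hle, hlim⟩ := ih
        obtain ⟨F'', hF'', hle', w, hw⟩ := (P i).conv (fun n => ξ (U n) i) F' hF'
        refine ⟨F'', hF'', hle'.trans hle, ?_⟩
        intro i' hi'
        rcases Finset.mem_insert.1 hi' with rfl | hi'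
        · exact ⟨w, hw⟩
        · obtain ⟨w', hw'⟩ := hlim i' hi'
          exact ⟨w', fun a => (hw' a).mono_left hle'⟩
    obtain ⟨F2, hF2', hle2, hlim⟩ := hind2 Finset.univ
    choose w hw using fun i => hlim i (Finset.mem_univ i)
    refine ⟨F2, hF2', (r0 : G) + ∑ i, (P i).S (w i), ?_⟩
    rw [hind.tendsto_nhds_iff, tendsto_pi_nhds]
    have hr1 : ∀ᶠ n in F2, r (U n) = (r0 : G) := by
      filter_upwards [hle2 hr0'] with n hn
      exact congrArg Subtype.val hn
    intro y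
    rcases y with ⟨i, a⟩ | a
    · rw [hfi]
      have h3 : Tendsto (fun n => (P i).j (r0 : G) a + (P i).j ((P i).S (ξ (U n) i)) a) F2
          (𝓝 ((P i).j (r0 : G) a + (P i).j ((P i).S (w i)) a)) :=
        tendsto_const_nhds.add (hw i a)
      refine h3.congr' ?_
      filter_upwards [hr1] with n hn
      show _ = F (r (U n) + ∑ i, (P i).S (ξ (U n) i)) _
      rw [hfi, hn]
    · rw [hf0]
      apply tendsto_nhds_of_eventually_eq
      filter_upwards [hr1] with n hn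
      show F (r (U n) + ∑ i, (P i).S (ξ (U n) i)) _ = _
      rw [hf0, hn]

end Pool.Agent.T9h66.SW
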