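import Pool.Agent.H376R3.PC.TypeL

/-!
# Stationary winning strategies: the basic construction
-/

set_option autoImplicit false

universe u

namespace Pool.Agent.T9h66.SW

open Cardinal Topology Filter Pool.Agent.H376R3.PC

/-- classes of filters on `ℕ` closed under refinement along which sequences in the Cantor set
converge: the filters of subsequences, or a single ultrafilter -/
structure Cls (𝒞 : Set (Filter ℕ)) : Prop where
  neBot : ∀ F ∈ 𝒞, F.NeBot
  ne : 𝒞.Nonempty
  sc : ∀ F ∈ 𝒞, ∀ u : ℕ → ℕ → Bool, ∃ F' ∈ 𝒞, F' ≤ F ∧ ∀ k, ∃ b, ∀ᶠ n in F', u n k = b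

/-- families of functions to `Bool` which are compact with respect to the class and have many free
coordinates -/
structure Base (𝒞 : Set (Filter ℕ)) (Q : Type u) (κ : Cardinal.{u}) where
  Z : Type u
  P : Type u
  t : Z → P → Bool
  inj : Function.Injective t
  conv : ∀ u : ℕ → Z, ∀ F ∈ 𝒞, ∃ F' ∈ 𝒞, F' ≤ F ∧ ∃ z, ∀ p, ∀ᶠ n in F', t (u n) p = t z p
  e : Q → P
  free : ∀ C : Set Q, C.Countable → ∀ b : Q → Bool, ∃ z, ∀ q ∈ C, t z (e q) = b q
  card : #Z ≤ κ
  cardP : #P ≤ #Q

theorem exists_omega1' : ∃ (W : Type u) (_ : LinearOrder W) (_ : WellFoundedLT W), #W = ℵ₁ ∧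
    ∀ A : Set W, A.Countable → ∃ w, ∀ a ∈ A, a < w := by
  refine ⟨(Ordinal.omega 1 : Ordinal.{u}).ToType, inferInstance, inferInstance, ?_, ?_⟩
  · simp
  · intro A hA
    have := hA.to_subtype
    let g : A → Ordinal.{u} := fun a => Order.succ (Ordinal.ToType.toOrd a.1 : Ordinal.{u})
    have h1 : ⨆ a, g a < Ordinal.omega 1 := by
      apply Ordinal.iSup_lt_omega_one
      intro a
      have h2 : (Ordinal.ToType.toOrd a.1 : Ordinal.{u}) < Ordinal.omega 1 :=
        (Ordinal.ToType.toOrd a.1).2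
      exact (Cardinal.isSuccLimit_omega 1).succ_lt h2
    refine ⟨Ordinal.ToType.mk ⟨_, h1⟩, ?_⟩
    intro a ha
    have h3 : (Ordinal.ToType.toOrd a : Ordinal.{u}) < ⨆ a, g a := by
      refine lt_of_lt_of_le (Order.lt_succ _) ?_
      exact Ordinal.le_iSup g ⟨a, ha⟩
    have h4 : Ordinal.ToType.mk (Ordinal.ToType.toOrd a) < Ordinal.ToType.mk ⟨_, h1⟩ :=
      Ordinal.ToType.mk.lt_iff_lt.2 h3
    simpa using h4

theorem W_conv {𝒞 : Set (Filter ℕ)} (h𝒞 : Cls 𝒞) {W : Type u} [LinearOrder W] [WellFoundedLT W]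
    (hWb : ∀ A : Set W, A.Countable → ∃ w, ∀ a ∈ A, a < w) (u : ℕ → W) (F : Filter ℕ)
    (hF : F ∈ 𝒞) : ∃ F' ∈ 𝒞, F' ≤ F ∧ ∃ β, ∀ α, ∀ᶠ n in F', (α < u n ↔ α < β) := by
  classical
  obtain ⟨F', hF', hle, hb⟩ := h𝒞.sc F hF (fun n m => decide (u m ≤ u n))
  refine ⟨F', hF', hle, ?_⟩
  have key : ∀ α, (∀ᶠ n in F', α < u n) ∨ (∀ᶠ n in F', ¬ α < u n) := by
    intro α
    by_cases h : ∃ m, α < u m
    · obtain ⟨m0, hm0⟩ := h
      have hne : {β : W | ∃ m, β = u m ∧ α < u m}.Nonempty := ⟨u m0, m0, rfl, hm0⟩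
      obtain ⟨β, ⟨m, rfl, hm⟩, hmin⟩ := WellFounded.has_min (wellFounded_lt (α := W)) _ hne
      obtain ⟨b, hb⟩ := hb m
      cases b
      · right
        filter_upwards [hb] with n hn h1
        have h2 : ¬ (u m ≤ u n) := by simpa using hn
        exact hmin (u n) ⟨n, rfl, h1⟩ (not_le.1 h2)
      · left
        filter_upwards [hb] with n hn
        have h2 : u m ≤ u n := by simpa using hn
        exact hm.trans_le h2
    · right
      push Not at h
      exact Filter.Eventually.of_forall fun n => not_lt.2 (h n)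
  obtain ⟨w, hw⟩ := hWb (Set.range u) (Set.countable_range u)
  have hne : {α : W | ∀ᶠ n in F', ¬ α < u n}.Nonempty :=
    ⟨w, Filter.Eventually.of_forall fun n => not_lt.2 (hw _ ⟨n, rfl⟩).le⟩
  obtain ⟨β, hβ, hmin⟩ := WellFounded.has_min (wellFounded_lt (α := W)) _ hne
  refine ⟨β, fun α => ?_⟩
  by_cases hαβ : α < β
  · rcases key α with h | h
    · filter_upwards [h] with n hn
      exact ⟨fun _ => hαβ, fun _ => hn⟩
    · exact absurd hαβ (hmin α h)
  · filter_upwards [hβ] with n hn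
    exact ⟨fun h => absurd ((not_lt.1 hαβ).trans_lt h) hn, fun h => absurd h hαβ⟩

/-- the conclusion of the basic construction -/
def TypeConcl (𝒞 : Set (Filter ℕ)) (M B : Type u) : Prop :=
  ∀ (n : ℕ) (r : B → ℕ) (e0 : M → B), Function.Injective e0 → (∀ m, r (e0 m) = n) →
    ∃ (X : Type u) (ψ : B → X → T) (Ξ : Type u) (s : Ξ → M),
      (∀ w, r w • ψ w = 0) ∧
      (∀ c : B →₀ ℤ, (c.sum fun w k => k • ψ w) = 0 → ∀ w, (r w : ℤ) ∣ c w) ∧
      (∀ u : ℕ → Ξ, ∀ F ∈ 𝒞, ∃ F' ∈ 𝒞, F' ≤ F ∧ ∃ ξ, ∀ a,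
        Tendsto (fun n => ψ (e0 (s (u n))) a) F' (𝓝 (ψ (e0 (s ξ)) a))) ∧
      (∀ A : Set X, A.Countable → ∀ v : X → T, (∀ a, n • v a = 0) →
        ∃ ξ, ∀ a ∈ A, ψ (e0 (s ξ)) a = v a)

theorem typeConcl_of_base {𝒞 : Set (Filter ℕ)} (h𝒞 : Cls 𝒞) {Q M B : Type u}
    (D : Base 𝒞 Q #M) (hQ : ℵ₁ ≤ #Q) (hM : ℵ₁ ≤ #M) (hB : #B ≤ 2 ^ #Q) : TypeConcl 𝒞 M B := by
  classical
  intro n r e0 he0 hr
  obtain ⟨W, _, _, hW, hWb⟩ := exists_omega1'.{u}
  have hQ0 : ℵ₀ ≤ #Q := (Cardinal.aleph0_le_aleph 1).trans hQ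
  have hM0 : ℵ₀ ≤ #M := (Cardinal.aleph0_le_aleph 1).trans hM
  let J : Type u := (D.P ⊕ W) ⊕ Q
  have hJ : #J = #Q := by
    apply le_antisymm
    · simp only [J, Cardinal.mk_sum, Cardinal.lift_id]
      calc #D.P + #W + #Q ≤ #Q + #Q + #Q := by
            gcongr
            · exact D.cardP
            · rw [hW]; exact hQ
        _ = #Q := by rw [Cardinal.add_eq_self hQ0, Cardinal.add_eq_self hQ0]
    · exact Cardinal.mk_le_of_injective (f := fun q : Q => (Sum.inr q : J)) Sum.inr_injective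
  have hX : #((W × LL J) × ℕ) ≤ #Q := by
    rw [Cardinal.mk_prod, Cardinal.mk_prod]
    simp only [Cardinal.lift_id, Cardinal.lift_uzero, Cardinal.mk_nat, Cardinal.lift_aleph0]
    rw [mk_LL (by rw [hJ]; exact hQ0), hW, hJ]
    calc ℵ₁ * #Q * ℵ₀ ≤ #Q * #Q * #Q := by gcongr
      _ = #Q := by rw [Cardinal.mul_eq_self hQ0, Cardinal.mul_eq_self hQ0]
  obtain ⟨e1⟩ : Nonempty ((W × LL J) × ℕ ↪ Q) := by rwa [Cardinal.le_def] at hX
  have hΞ : #(D.Z × W) ≤ #M := by
    rw [Cardinal.mk_prod, Cardinal.lift_id, Cardinal.lift_id, hW]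
    calc #D.Z * ℵ₁ ≤ #M * #M := by
          gcongr
          exact D.card
      _ = #M := Cardinal.mul_eq_self hM0
  obtain ⟨g⟩ : Nonempty (D.Z × W ↪ M) := by rwa [Cardinal.le_def] at hΞ
  obtain ⟨ι⟩ : Nonempty (B ↪ (Q → Bool)) := by
    rw [← Cardinal.le_def]
    have h2 : #(Q → Bool) = 2 ^ #Q := by simp
    rw [h2]
    exact hB
  obtain ⟨q, hqc, hqn, hqs⟩ := exists_cantor n
  choose τ hτ1 hτ2 using exists_tau
  let G : D.Z × W → B := fun y => e0 (g y)
  have hG : Function.Injective G := he0.comp g.injective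
  let cd : D.Z × W → (J ⊕ ℕ → Bool) := fun y =>
    Sum.elim (Sum.elim (Sum.elim (D.t y.1) (fun α => decide (α < y.2))) (fun _ => false))
      (fun _ => true)
  let cd' : B → (J ⊕ ℕ → Bool) := fun w =>
    Sum.elim (Sum.elim (Sum.elim (fun _ => false) (fun _ => false)) (ι w)) (fun _ => false)
  let code : B → (J ⊕ ℕ → Bool) := Function.extend G cd cd'
  have hcode1 : ∀ y, code (G y) = cd y := fun y => hG.extend_apply _ _ y
  have hcode2 : ∀ w, (¬ ∃ y, G y = w) → code w = cd' w :=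
    fun w hw => Function.extend_apply' _ _ _ hw
  have hcdinj : Function.Injective cd := by
    rintro ⟨z, β⟩ ⟨z', β'⟩ h
    have h1 : D.t z = D.t z' := by
      funext p
      have := congrFun h (Sum.inl (Sum.inl (Sum.inl p)))
      simpa [cd] using this
    have h2 : ∀ α, (α < β ↔ α < β') := by
      intro α
      have := congrFun h (Sum.inl (Sum.inl (Sum.inr α)))
      simpa [cd] using this
    have h3 : β = β' := by
      rcases lt_trichotomy β β' with h | h | h
      · exact absurd ((h2 β).2 h) (lt_irrefl _)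
      · exact h
      · exact absurd ((h2 β').1 h) (lt_irrefl _)
    rw [D.inj h1, h3]
  have hcode : Function.Injective code := by
    intro w w' hww
    by_cases h1 : ∃ y, G y = w
    · obtain ⟨y, rfl⟩ := h1
      by_cases h2 : ∃ y, G y = w'
      · obtain ⟨y', rfl⟩ := h2
        rw [hcode1, hcode1] at hww
        rw [hcdinj hww]
      · rw [hcode1, hcode2 _ h2] at hww
        have := congrFun hww (Sum.inr 0)
        simp [cd, cd'] at this
    · by_cases h2 : ∃ y, G y = w'
      · obtain ⟨y', rfl⟩ := h2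
        rw [hcode1, hcode2 _ h1] at hww
        have := congrFun hww (Sum.inr 0)
        simp [cd, cd'] at this
      · rw [hcode2 _ h1, hcode2 _ h2] at hww
        apply ι.injective
        funext j
        have := congrFun hww (Sum.inl (Sum.inr j))
        simpa [cd'] using this
  let ψ : B → (W × LL J) → T := Function.extend G
    (fun y x => if x.1 < y.2 then q (fun i => D.t y.1 (D.e (e1 (x, i))))
      else vec (cd y) (τ n) x.2) (fun w x => vec (code w) (τ (r w)) x.2)
  have hψ1 : ∀ y, ψ (G y) = fun x => if x.1 < y.2 then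
      q (fun i => D.t y.1 (D.e (e1 (x, i)))) else vec (cd y) (τ n) x.2 :=
    fun y => hG.extend_apply _ _ y
  have hψ2 : ∀ w, (¬ ∃ y, G y = w) → ψ w = fun x => vec (code w) (τ (r w)) x.2 :=
    fun w hw => Function.extend_apply' _ _ _ hw
  have hrG : ∀ y, r (G y) = n := fun y => hr _
  obtain ⟨w00, -⟩ := hWb ∅ Set.countable_empty
  have hψ3 : ∀ w, ∃ α0 : W, ∀ x : W × LL J, ¬ (x.1 < α0) →
      ψ w x = vec (code w) (τ (r w)) x.2 := by
    intro w
    by_cases h1 : ∃ y, G y = w
    · obtain ⟨y, rfl⟩ := h1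
      refine ⟨y.2, fun x hx => ?_⟩
      rw [hψ1, hrG, hcode1]
      simp only [hx, if_false]
    · exact ⟨w00, fun x _ => by rw [hψ2 w h1]⟩
  have hvec0 : ∀ (c : J ⊕ ℕ → Bool) (m : ℕ) (l : LL J), m • vec c (τ m) l = 0 := by
    intro c m l
    unfold vec
    split_ifs
    · exact hτ1 m
    · simp
  refine ⟨W × LL J, ψ, D.Z × W, fun ξ => g ξ, ?_, ?_, ?_, ?_⟩
  · intro w
    by_cases h1 : ∃ y, G y = w
    · obtain ⟨y, rfl⟩ := h1
      funext x
      rw [hψ1, hrG]
      simp only [Pi.smul_apply, Pi.zero_apply]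
      split_ifs
      · exact hqn _
      · exact hvec0 _ _ _
    · funext x
      rw [hψ2 w h1]
      simp only [Pi.smul_apply, Pi.zero_apply]
      exact hvec0 _ _ _
  · intro c hcs w
    choose α hα using hψ3
    by_cases hw : w ∈ c.support
    swap
    · rw [Finsupp.notMem_support_iff.1 hw]; exact dvd_zero _
    obtain ⟨β, hβ⟩ := hWb (↑(c.support.image α)) (c.support.image α).countable_toSet
    obtain ⟨l, hl1, hl2⟩ := exists_isolate code hcode c.support w
    have h1 := congrFun hcs (β, l)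
    rw [Finsupp.sum, Finset.sum_apply, Finset.sum_eq_single w] at h1
    · simp only [Pi.smul_apply, Pi.zero_apply] at h1
      rw [hα w (β, l) (not_lt.2 (hβ _ (by exact_mod_cast Finset.mem_image_of_mem α hw)).le)] at h1
      simp only [vec, hl1, if_true] at h1
      exact hτ2 _ _ h1
    · intro w' hw' hne
      simp only [Pi.smul_apply]
      rw [hα w' (β, l) (not_lt.2 (hβ _ (by exact_mod_cast Finset.mem_image_of_mem α hw')).le)]
      simp only [vec, hl2 w' hw' hne, if_false, smul_zero]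
    · intro h; exact absurd hw h
  · intro u F hF
    obtain ⟨F1, hF1, hle1, z, hz⟩ := D.conv (fun k => (u k).1) F hF
    obtain ⟨F2, hF2, hle2, β, hβ⟩ := W_conv h𝒞 hWb (fun k => (u k).2) F1 hF1
    refine ⟨F2, hF2, hle2.trans hle1, (z, β), ?_⟩
    have hz2 : ∀ p, ∀ᶠ k in F2, D.t (u k).1 p = D.t z p := fun p => hle2 (hz p)
    intro x
    have e1' : (fun k => ψ (e0 (g (u k))) x) = fun k => if x.1 < (u k).2 then
      q (fun i => D.t (u k).1 (D.e (e1 (x, i)))) else vec (cd (u k)) (τ n) x.2 := by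
      funext k
      exact congrFun (hψ1 (u k)) x
    have e2' : ψ (e0 (g (z, β))) x = if x.1 < β then
      q (fun i => D.t z (D.e (e1 (x, i)))) else vec (cd (z, β)) (τ n) x.2 :=
      congrFun (hψ1 (z, β)) x
    rw [e1', e2']
    by_cases hx : x.1 < β
    · rw [if_pos hx]
      have h3 : Tendsto (fun k => q (fun i => D.t (u k).1 (D.e (e1 (x, i))))) F2
          (𝓝 (q (fun i => D.t z (D.e (e1 (x, i)))))) := by
        apply (hqc.tendsto _).comp
        rw [tendsto_pi_nhds]
        intro i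
        exact tendsto_nhds_of_eventually_eq (hz2 _)
      refine h3.congr' ?_
      filter_upwards [hβ x.1] with k hk
      rw [if_pos (hk.2 hx)]
    · rw [if_neg hx]
      apply tendsto_nhds_of_eventually_eq
      have h4 : ∀ b ∈ x.2.1, ∀ᶠ k in F2, cd (u k) b = cd (z, β) b := by
        intro b _
        rcases b with (((p | α) | j) | i)
        · filter_upwards [hz2 p] with k hk
          simpa [cd] using hk
        · filter_upwards [hβ α] with k hk
          simp only [cd, Sum.elim_inl, Sum.elim_inr]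
          exact decide_eq_decide.2 hk
        · exact Filter.Eventually.of_forall fun k => rfl
        · exact Filter.Eventually.of_forall fun k => rfl
      have h5 := (Filter.eventually_all_finset x.2.1).2 h4
      filter_upwards [h5, hβ x.1] with k hk hk2
      rw [if_neg (fun h => hx (hk2.1 h))]
      have h6 : Mem (cd (u k)) x.2 ↔ Mem (cd (z, β)) x.2 := by
        unfold Mem
        constructor
        · intro h b hb
          rw [← hk b hb]; exact h b hb
        · intro h b hb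
          rw [hk b hb]; exact h b hb
      simp only [vec, h6]
  · intro A hA v hv
    obtain ⟨β, hβ⟩ := hWb (Prod.fst '' A) (hA.image _)
    choose! zz hzz using fun (a : W × LL J) => hqs (v a) (hv a)
    obtain ⟨z, hz⟩ := D.free (e1 '' (A ×ˢ (Set.univ : Set ℕ)))
      ((hA.prod Set.countable_univ).image _)
      (Function.extend e1 (fun y => zz y.1 y.2) (fun _ => false))
    refine ⟨(z, β), fun a ha => ?_⟩
    have h2 : ψ (e0 (g (z, β))) a = if a.1 < β then
      q (fun i => D.t z (D.e (e1 (a, i)))) else vec (cd (z, β)) (τ n) a.2 :=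
      congrFun (hψ1 (z, β)) a
    rw [h2, if_pos (hβ _ ⟨a, ha, rfl⟩), ← hzz a]
    congr 1
    funext i
    rw [hz (e1 (a, i)) ⟨(a, i), ⟨ha, Set.mem_univ _⟩, rfl⟩]
    exact e1.injective.extend_apply _ _ (a, i)

end Pool.Agent.T9h66.SW
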