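import Pool.Agent.T9h66.SW.Base

/-!
# The class of subsequences; families of sets with countable traces
-/

set_option autoImplicit false

universe u

namespace Pool.Agent.T9h66.SW

open Cardinal Topology Filter Pool.Agent.H376R3.PC

/-- the filters of subsequences -/
def CSeq : Set (Filter ℕ) := {F | ∃ φ : ℕ → ℕ, StrictMono φ ∧ F = map φ atTop}

theorem cls_seq : Cls CSeq := by
  refine ⟨?_, ⟨_, id, strictMono_id, rfl⟩, ?_⟩
  · rintro F ⟨φ, -, rfl⟩
    infer_instance
  · rintro F ⟨φ, hφ, rfl⟩ u
    obtain ⟨b, ψ, hψ, hb⟩ := CompactSpace.tendsto_subseq (X := ℕ → Bool) (fun k => u (φ k))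
    refine ⟨map (φ ∘ ψ) atTop, ⟨φ ∘ ψ, hφ.comp hψ, rfl⟩, ?_, ?_⟩
    · rw [← Filter.map_map]
      exact Filter.map_mono hψ.tendsto_atTop
    · intro k
      refine ⟨b k, ?_⟩
      have h1 := (tendsto_pi_nhds.1 hb) k
      have h2 : ∀ᶠ n in atTop, u (φ (ψ n)) k ∈ ({b k} : Set Bool) :=
        h1 (IsOpen.mem_nhds (isOpen_discrete _) (Set.mem_singleton _))
      exact h2

/-- a family of subsets of `N` indexed by `Y` (injectively) with countably many traces on each
countable set -/
def CtblTraces {N Y : Type u} (f : Y → (N → Bool)) : Prop :=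
  Function.Injective f ∧ ∀ c : ℕ → N, (Set.range fun y n => f y (c n)).Countable

theorem exists_base_seq {𝒞 : Set (Filter ℕ)} (h𝒞 : Cls 𝒞) {N Y : Type u} (f : Y → (N → Bool))
    (hf : CtblTraces f) [Nonempty N]
    [Nonempty Y] (κ : Cardinal.{u}) (hκ : #(ℕ → N) ≤ κ) (hκc : 𝔠 ≤ κ) :
    Nonempty (Base 𝒞 Y κ) := by
  classical
  obtain ⟨hinj, hct⟩ := hf
  -- enumerations of the traces
  have h1 : ∀ c : ℕ → N, ∃ E : ℕ → (ℕ → Bool), ∀ y, ∃ i, E i = fun n => f y (c n) := by
    intro c
    obtain ⟨E, hE⟩ := (hct c).exists_eq_range (Set.range_nonempty _)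
    refine ⟨E, fun y => ?_⟩
    have : (fun n => f y (c n)) ∈ Set.range fun (y : Y) n => f y (c n) := ⟨y, rfl⟩
    rw [hE] at this
    exact this
  choose E hE using h1
  let Zp : (Y → Bool) → Prop := fun z => ∃ c : ℕ → N, ∀ y y', (∀ n, f y (c n) = f y' (c n)) →
    z y = z y'
  let Z : Type u := {z : Y → Bool // Zp z}
  choose cz hcz using fun z : Z => z.2
  refine ⟨{
    Z := Z
    P := Y
    t := fun z y => z.1 y
    inj := fun z z' h => Subtype.ext h
    conv := ?_
    e := id
    free := ?_
    card := ?_
    cardP := le_rfl }⟩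
  · intro u F hF
    let c : ℕ → N := fun m => cz (u (Nat.unpair m).1) (Nat.unpair m).2
    have hc : ∀ k n, c (Nat.pair k n) = cz (u k) n := by
      intro k n; simp [c]
    have hfac : ∀ k y y', (∀ n, f y (c n) = f y' (c n)) → (u k).1 y = (u k).1 y' := by
      intro k y y' h
      apply hcz (u k)
      intro n
      rw [← hc k n]
      exact h _
    let w : ℕ → ℕ → Bool := fun k i =>
      if h : ∃ y, E c i = fun n => f y (c n) then (u k).1 h.choose else false
    obtain ⟨F', hF', hle, hb⟩ := h𝒞.sc F hF w
    choose b hb using hb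
    refine ⟨F', hF', hle, ⟨⟨fun y => b (Nat.find (hE c y)), c, ?_⟩, ?_⟩⟩
    · intro y y' h
      have h2 : (fun n => f y (c n)) = fun n => f y' (c n) := funext h
      have h3 : Nat.find (hE c y) = Nat.find (hE c y') := by
        congr 1
        funext i
        rw [h2]
      show b (Nat.find (hE c y)) = b (Nat.find (hE c y'))
      rw [h3]
    · intro y
      filter_upwards [hb (Nat.find (hE c y))] with k hk
      show (u k).1 y = b (Nat.find (hE c y))
      rw [← hk]
      have h3 : ∃ y', E c (Nat.find (hE c y)) = fun n => f y' (c n) :=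
        ⟨y, Nat.find_spec (hE c y)⟩
      simp only [w]
      rw [dif_pos h3]
      apply hfac
      intro n
      exact congrFun ((Nat.find_spec (hE c y)).symm.trans h3.choose_spec) n
  · intro C hC b
    have h2 : ∀ y y' : Y, ∃ n : N, y ≠ y' → f y n ≠ f y' n := by
      intro y y'
      by_cases h : y = y'
      · exact ⟨Classical.arbitrary N, fun h' => absurd h h'⟩
      · by_contra hcon
        push Not at hcon
        apply h
        apply hinj
        funext n
        exact (hcon n).2
    choose d hd using h2
    have hcount : (Set.image2 d C C ∪ {Classical.arbitrary N}).Countable :=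
      (hC.image2 hC d).union (Set.countable_singleton _)
    obtain ⟨c, hc⟩ := hcount.exists_eq_range ⟨_, Or.inr rfl⟩
    refine ⟨⟨fun y => decide (∃ y' ∈ C, (∀ n, f y (c n) = f y' (c n)) ∧ b y' = true), c, ?_⟩, ?_⟩
    · intro y y' h
      apply decide_eq_decide.2
      constructor
      · rintro ⟨y'', h1, h2, h3⟩
        exact ⟨y'', h1, fun n => (h n).symm.trans (h2 n), h3⟩
      · rintro ⟨y'', h1, h2, h3⟩
        exact ⟨y'', h1, fun n => (h n).trans (h2 n), h3⟩
    · intro y hy
      show decide (∃ y' ∈ C, (∀ n, f y (c n) = f y' (c n)) ∧ b y' = true) = b y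
      have key : ∀ y' ∈ C, (∀ n, f y (c n) = f y' (c n)) → y' = y := by
        intro y' hy' h
        by_contra hne
        have h3 : d y y' ∈ Set.range c := by
          rw [← hc]
          exact Or.inl ⟨y, hy, y', hy', rfl⟩
        obtain ⟨n, hn⟩ := h3
        have h4 := hd y y' (fun h => hne h.symm)
        rw [← hn] at h4
        exact h4 (h n)
      cases hb : b y
      · rw [decide_eq_false_iff_not]
        rintro ⟨y', h1, h2, h3⟩
        rw [key y' h1 h2, hb] at h3
        exact Bool.false_ne_true h3
      · rw [decide_eq_true_iff]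
        exact ⟨y, hy, fun _ => rfl, hb⟩
  · let G : Z → (ℕ → N) × (ℕ → Bool) := fun z => (cz z, fun i =>
      if h : ∃ y, E (cz z) i = fun n => f y (cz z n) then z.1 h.choose else false)
    have hG : Function.Injective G := by
      intro z z' h
      have h2 : cz z = cz z' := congrArg Prod.fst h
      have h3 : ∀ i, (if h : ∃ y, E (cz z) i = fun n => f y (cz z n) then z.1 h.choose else false) =
          (if h : ∃ y, E (cz z') i = fun n => f y (cz z' n) then z'.1 h.choose else false) :=
        fun i => congrFun (congrArg Prod.snd h) i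
      apply Subtype.ext
      funext y
      obtain ⟨i, hi⟩ := hE (cz z) y
      have h4 : ∃ y, E (cz z) i = fun n => f y (cz z n) := ⟨y, hi⟩
      have h5 := h3 i
      rw [dif_pos h4] at h5
      have h6 : z.1 h4.choose = z.1 y := by
        apply hcz z
        intro n
        exact congrFun (h4.choose_spec.symm.trans hi) n
      have hi' : E (cz z') i = fun n => f y (cz z' n) := by
        rw [← h2]; exact hi
      have h7 : ∃ y, E (cz z') i = fun n => f y (cz z' n) := ⟨y, hi'⟩
      rw [dif_pos h7] at h5
      have h8 : z'.1 h7.choose = z'.1 y := by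
        apply hcz z'
        intro n
        exact congrFun (h7.choose_spec.symm.trans hi') n
      rw [← h6, h5, h8]
    refine (Cardinal.mk_le_of_injective hG).trans ?_
    rw [Cardinal.mk_prod]
    have h2 : #(ℕ → Bool) = 𝔠 := by simp
    simp only [Cardinal.lift_uzero, h2, Cardinal.lift_continuum]
    calc #(ℕ → N) * 𝔠 ≤ κ * κ := by gcongr
      _ = κ := Cardinal.mul_eq_self (Cardinal.aleph0_le_continuum.trans hκc)

/-- the family of singletons -/
theorem ctblTraces_singletons (N : Type u) [DecidableEq N] :
    CtblTraces (fun y x : N => decide (x = y)) := by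
  refine ⟨?_, ?_⟩
  · intro y y' h
    have := congrFun h y
    simpa using this
  · intro c
    have h1 : (Set.range fun (y : N) (n : ℕ) => decide (c n = y)) ⊆
        insert (fun _ => false) ((fun y : N => fun n => decide (c n = y)) '' Set.range c) := by
      rintro _ ⟨y, rfl⟩
      by_cases h : y ∈ Set.range c
      · exact Or.inr ⟨y, h, rfl⟩
      · left
        funext n
        rw [decide_eq_false_iff_not]
        intro h2
        exact h ⟨n, h2⟩
    exact ((Set.countable_range c).image _ |>.insert _).mono h1

end Pool.Agent.T9h66.SW
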