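import Pool.Agent.T9h66.SW.Base
import Pool.Agent.H833R3.PD34

/-!
# The class of one ultrafilter; the hull of the principal ultrafilters
-/

set_option autoImplicit false

universe u

namespace Pool.Agent.T9h66.SW

open Cardinal Topology Filter Pool.Agent.H376R3.PC

/-- the class of one ultrafilter -/
def CUlt (q : Ultrafilter ℕ) : Set (Filter ℕ) := {(q : Filter ℕ)}

theorem cls_ult (q : Ultrafilter ℕ) : Cls (CUlt q) := by
  refine ⟨?_, ⟨_, rfl⟩, ?_⟩
  · rintro F rfl
    infer_instance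
  · rintro F rfl u
    refine ⟨q, rfl, le_rfl, fun k => ?_⟩
    by_cases h : {n | u n k = true} ∈ q
    · exact ⟨true, h⟩
    · refine ⟨false, ?_⟩
      have h2 := Ultrafilter.compl_mem_iff_notMem.2 h
      filter_upwards [h2] with n hn
      have h3 : ¬ (u n k = true) := hn
      simpa using h3

/-- the arities -/
def ar (L : Type u) : L ⊕ PUnit.{u+1} → Type := Sum.elim (fun _ => Empty) (fun _ => ℕ)

/-- the shapes -/
abbrev Shape (L : Type u) : Type u := WType (ar L)

theorem mk_shape_le (L : Type u) (κ : Cardinal.{u}) (hκ : ℵ₀ ≤ κ) (hL : #L ≤ κ)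
    (hκ2 : κ ^ (ℵ₀ : Cardinal.{u}) ≤ κ) : #(Shape L) ≤ κ := by
  apply WType.cardinalMk_le_of_le'.{u, 0}
  have h1 : ∀ a : L ⊕ PUnit.{u+1}, κ ^ Cardinal.lift.{u} #(ar L a) ≤ κ := by
    rintro (a | a)
    · simp only [ar, Sum.elim_inl, Cardinal.mk_eq_zero, Cardinal.lift_zero, Cardinal.power_zero]
      exact Cardinal.one_lt_aleph0.le.trans hκ
    · simp only [ar, Sum.elim_inr, Cardinal.mk_nat, Cardinal.lift_aleph0]
      exact hκ2
  calc (Cardinal.sum fun a => κ ^ Cardinal.lift.{u} #(ar L a)) ≤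
      Cardinal.sum (fun _ : L ⊕ PUnit.{u+1} => κ) := Cardinal.sum_le_sum _ _ h1
    _ = #(L ⊕ PUnit.{u+1}) * κ := Cardinal.sum_const' _ _
    _ ≤ κ * κ := by
        gcongr
        rw [Cardinal.mk_sum, Cardinal.lift_id, Cardinal.lift_id, Cardinal.mk_punit]
        calc #L + 1 ≤ κ + κ := by
              gcongr
              exact Cardinal.one_lt_aleph0.le.trans hκ
          _ = κ := Cardinal.add_eq_self hκ
    _ = κ := Cardinal.mul_eq_self hκ

/-- evaluation of shapes -/
def evs {L : Type u} (q : Ultrafilter ℕ) : Shape L → Ultrafilter L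
  | ⟨Sum.inl l, _⟩ => pure l
  | ⟨Sum.inr _, g⟩ => q.bind fun n => evs q (g n)

theorem exists_base_ult (q : Ultrafilter ℕ) (N : Type u) (κ : Cardinal.{u}) (hN0 : ℵ₀ ≤ #N)
    (hN : #(ℕ → N) ≤ #N) (hκ : #N ≤ κ) (hκ2 : κ ^ (ℵ₀ : Cardinal.{u}) ≤ κ) :
    Nonempty (Base (CUlt q) (N → Bool) κ) := by
  classical
  have hQ : #(N → Bool) = 2 ^ #N := by simp
  obtain ⟨L, f, hL, hf⟩ := Pool.Agent.H833R3.PD.pd4 (N → Bool) N Bool
    ((Cardinal.lt_aleph0_of_finite Bool).le.trans Cardinal.aleph0_le_continuum) hN0 hQ.le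
  have hLN : #L ≤ #N := hL.trans hN
  let Z : Type u := Set.range (evs (L := L) q)
  refine ⟨{
    Z := Z
    P := Set L
    t := fun z A => decide (A ∈ (z : Ultrafilter L))
    inj := ?_
    conv := ?_
    e := fun b => {l | f l b = true}
    free := ?_
    card := ?_
    cardP := ?_ }⟩
  · intro z z' h
    apply Subtype.ext
    apply Ultrafilter.ext
    intro A
    exact decide_eq_decide.1 (congrFun h A)
  · rintro u F rfl
    choose g hg using fun k => (u k).2
    let z : Ultrafilter L := q.bind fun n => evs q (g n)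
    have hz : z ∈ Set.range (evs (L := L) q) :=
      ⟨WType.mk (Sum.inr PUnit.unit) g, rfl⟩
    refine ⟨q, rfl, le_rfl, ⟨z, hz⟩, fun A => ?_⟩
    have h1 : A ∈ z ↔ ∀ᶠ n in (q : Filter ℕ), A ∈ ((u n : Ultrafilter L)) := by
      have h2 : A ∈ z ↔ {n | A ∈ evs q (g n)} ∈ q := by
        show A ∈ (Filter.bind (q : Filter ℕ) (fun n => ((evs q (g n) : Ultrafilter L) : Filter L))) ↔ _
        rfl
      rw [h2]
      have h3 : {n | A ∈ evs q (g n)} = {n | A ∈ ((u n : Ultrafilter L))} := by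
        ext n
        simp only [Set.mem_ofPred_eq, hg]
      rw [h3]
      rfl
    by_cases h : A ∈ z
    · filter_upwards [h1.1 h] with n hn
      exact decide_eq_decide.2 ⟨fun _ => h, fun _ => hn⟩
    · have h2 : ∀ᶠ n in (q : Filter ℕ), ¬ A ∈ ((u n : Ultrafilter L)) :=
        Ultrafilter.eventually_not.2 (fun h' => h (h1.2 h'))
      filter_upwards [h2] with n hn
      exact decide_eq_decide.2 ⟨fun h' => absurd h' hn, fun h' => absurd h' h⟩
  · intro C hC b
    obtain ⟨l, hl⟩ := hf C hC b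
    refine ⟨⟨pure l, ⟨WType.mk (Sum.inl l) (fun x => x.elim), rfl⟩⟩, fun y hy => ?_⟩
    have h1 : ({l | f l y = true} : Set L) ∈ (pure l : Ultrafilter L) ↔ f l y = true :=
      Ultrafilter.mem_pure
    show decide (({l | f l y = true} : Set L) ∈ (pure l : Ultrafilter L)) = b y
    rw [← hl y hy]
    cases h : f l y
    · rw [decide_eq_false_iff_not, h1, h]
      exact Bool.false_ne_true
    · rw [decide_eq_true_iff, h1, h]
  · exact Cardinal.mk_range_le.trans (mk_shape_le L κ (hN0.trans hκ) (hLN.trans hκ) hκ2)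
  · rw [Cardinal.mk_set, hQ]
    exact Cardinal.power_le_power_left two_ne_zero hLN

end Pool.Agent.T9h66.SW
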