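import Pool.Agent.T9h66.SW.Card
import Pool.Agent.H376R3.PC.Defs

/-!
# Cardinal arithmetic, dense sets
-/

set_option autoImplicit false

universe u

namespace Pool.Agent.T9h66.SW

open Cardinal Set Pool.Agent.H376R3.PC

/-- uncountable strong limit cardinals of countable cofinality -/
def Bad (X : Cardinal.{u}) : Prop := X.IsStrongLimit ∧ ℵ₀ < X ∧ X.ord.cof = ℵ₀

/-- `L` realises every function on every countable set of coordinates -/
def CD {X : Type u} (L : Set (X → Bool)) : Prop :=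
  ∀ C : Set X, C.Countable → ∀ b : X → Bool, ∃ f ∈ L, ∀ x ∈ C, f x = b x

/-- the countable case of the singular cardinals hypothesis -/
def SCHc : Prop := ∀ κ : Cardinal.{u}, 𝔠 ≤ κ → κ ^ (ℵ₀ : Cardinal.{u}) ≤ Order.succ κ

theorem two_pow_pow_aleph0 (c : Cardinal.{u}) (hc : ℵ₀ ≤ c) :
    ((2 : Cardinal.{u}) ^ c) ^ (ℵ₀ : Cardinal.{u}) = 2 ^ c := by
  rw [← Cardinal.power_mul, Cardinal.mul_aleph0_eq hc]

theorem cont_pow_aleph0 : (𝔠 : Cardinal.{u}) ^ (ℵ₀ : Cardinal.{u}) = 𝔠 :=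
  Cardinal.continuum_power_aleph0

theorem not_bounded_of_cof {κ : Cardinal.{u}} (hc : ℵ₀ < κ.ord.cof) (f : ℕ → κ.ord.ToType) :
    ∃ w, ∀ n, f n < w := by
  by_contra hcon
  push Not at hcon
  have h1 : IsCofinal (Set.range f) := by
    intro w
    obtain ⟨n, hn⟩ := hcon w
    exact ⟨f n, ⟨n, rfl⟩, hn⟩
  have h2 := Order.cof_le h1
  rw [Ordinal.cof_toType] at h2
  have h3 : #(Set.range f) ≤ ℵ₀ := Cardinal.mk_le_aleph0_iff.2 (Set.countable_range f).to_subtype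
  exact absurd hc (not_lt.2 (h2.trans h3))

theorem pow_omega_le_of_cof {κ : Cardinal.{u}} (hc : ℵ₀ < κ.ord.cof) (hκ : ℵ₀ ≤ κ)
    (hb : ∀ c < κ, c ^ (ℵ₀ : Cardinal.{u}) ≤ κ) : κ ^ (ℵ₀ : Cardinal.{u}) ≤ κ := by
  have hW : #κ.ord.ToType = κ := Cardinal.mk_ord_toType κ
  have hcard : ∀ w : κ.ord.ToType, #(Set.Iio w) < κ := by
    intro w
    have := Cardinal.mk_Iio_lt w (by simp)
    rwa [hW] at this
  have h1 : κ ^ (ℵ₀ : Cardinal.{u}) = #(ℕ → κ.ord.ToType) := by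
    rw [Cardinal.mk_arrow, hW]
    simp
  let Φ : (Σ w : κ.ord.ToType, ℕ → Set.Iio w) → (ℕ → κ.ord.ToType) := fun p n => (p.2 n).1
  have hΦ : Function.Surjective Φ := by
    intro f
    obtain ⟨w, hw⟩ := not_bounded_of_cof hc f
    exact ⟨⟨w, fun n => ⟨f n, hw n⟩⟩, rfl⟩
  rw [h1]
  refine (Cardinal.mk_le_of_surjective hΦ).trans ?_
  rw [Cardinal.mk_sigma]
  refine (Cardinal.sum_le_sum _ (fun _ => κ) ?_).trans ?_
  · intro w
    rw [Cardinal.mk_arrow]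
    simp only [Cardinal.mk_nat, Cardinal.lift_aleph0, Cardinal.lift_uzero]
    exact hb _ (hcard w)
  · rw [Cardinal.sum_const', hW]
    exact (Cardinal.mul_eq_self hκ).le

theorem exists_union {κ : Cardinal.{u}} (hc : κ.ord.cof ≤ ℵ₀) (hκ : ℵ₀ ≤ κ) {Δ : Type u}
    (hΔ : #Δ ≤ κ) : ∃ D : ℕ → Set Δ, (∀ n, #(D n) < κ) ∧ ∀ δ, ∃ n, δ ∈ D n := by
  have hW : #κ.ord.ToType = κ := Cardinal.mk_ord_toType κ
  obtain ⟨S, hS, hS'⟩ := Order.exists_cof_eq κ.ord.ToType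
  rw [Ordinal.cof_toType] at hS'
  have hct : Countable S := Cardinal.mk_le_aleph0_iff.1 (hS'.le.trans hc)
  have hne : Nonempty κ.ord.ToType := by
    rw [← Cardinal.mk_ne_zero_iff, hW]
    intro h
    rw [h] at hκ
    exact absurd hκ (not_le.2 Cardinal.aleph0_pos)
  obtain ⟨w0⟩ := hne
  obtain ⟨b0, hb0, -⟩ := hS w0
  have hneS : Nonempty S := ⟨⟨b0, hb0⟩⟩
  obtain ⟨f, hf⟩ := exists_surjective_nat S
  obtain ⟨e⟩ : Nonempty (Δ ↪ κ.ord.ToType) := by rwa [← Cardinal.le_def, hW]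
  refine ⟨fun n => {δ | e δ ≤ f n}, fun n => ?_, fun δ => ?_⟩
  · have h1 : #{δ | e δ ≤ (f n : κ.ord.ToType)} ≤ #(Set.Iic (f n : κ.ord.ToType)) :=
      Cardinal.mk_le_of_injective (f := fun δ => ⟨e δ.1, δ.2⟩) (by
        intro a b hab
        have : e a.1 = e b.1 := congrArg Subtype.val hab
        exact Subtype.ext (e.injective this))
    have h2 := Cardinal.mk_Iic_lt (f n : κ.ord.ToType) (by simp) (by rw [hW]; exact hκ)
    rw [hW] at h2
    exact h1.trans_lt h2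
  · obtain ⟨b, hb, hb2⟩ := hS (e δ)
    obtain ⟨n, hn⟩ := hf ⟨b, hb⟩
    exact ⟨n, by
      show e δ ≤ f n
      rw [hn]; exact hb2⟩

theorem dens_bad {X : Type u} (hX : Bad #X) (L : Set (X → Bool)) (hL : CD L) : #X < #L := by
  classical
  by_contra hcon
  obtain ⟨D, hD1, hD2⟩ := exists_union hX.2.2.le hX.2.1.le (not_lt.1 hcon)
  have : Infinite X := Cardinal.infinite_iff.2 hX.2.1.le
  obtain ⟨e⟩ : Nonempty (ℕ × X ≃ X) := by
    have h1 : #(ℕ × X) = #X := by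
      rw [Cardinal.mk_prod]
      simp only [Cardinal.mk_nat, Cardinal.lift_aleph0, Cardinal.lift_uzero]
      exact Cardinal.aleph0_mul_eq hX.2.1.le
    have h2 : Cardinal.lift.{u} #(ℕ × X) = Cardinal.lift.{u} #X := by rw [h1]
    exact Cardinal.lift_mk_eq'.1 (by simp [h1])
  have h1 : ∀ n, ∃ x y : X, x ≠ y ∧ ∀ f ∈ D n, f.1 (e (n, x)) = f.1 (e (n, y)) := by
    intro n
    by_contra hcon
    push Not at hcon
    let g : X → Set (D n) := fun x => {f | f.1.1 (e (n, x)) = true}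
    have hg : Function.Injective g := by
      intro x y hxy
      by_contra hne
      obtain ⟨f, hf, hf2⟩ := hcon x y hne
      apply hf2
      have h3 : (⟨f, hf⟩ : D n) ∈ g x ↔ (⟨f, hf⟩ : D n) ∈ g y := by rw [hxy]
      have h4 : (f.1 (e (n, x)) = true) ↔ (f.1 (e (n, y)) = true) := h3
      exact Bool.eq_iff_iff.2 h4
    have h2 := Cardinal.mk_le_of_injective hg
    rw [Cardinal.mk_set] at h2
    exact absurd (hX.1.isStrongPrelimit (hD1 n)) (not_lt.2 h2)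
  choose x y hxy hf using h1
  obtain ⟨f, hfL, hfb⟩ := hL (Set.range (fun n => e (n, x n)) ∪ Set.range (fun n => e (n, y n)))
    ((Set.countable_range _).union (Set.countable_range _))
    (fun z => decide (∃ n, z = e (n, x n)))
  obtain ⟨n, hn⟩ := hD2 ⟨f, hfL⟩
  have h2 := hf n _ hn
  simp only at h2
  have h3 := hfb (e (n, x n)) (Or.inl ⟨n, rfl⟩)
  have h4 := hfb (e (n, y n)) (Or.inr ⟨n, rfl⟩)
  rw [h3, h4] at h2
  have h6 : ¬ (∃ m, e (n, y n) = e (m, x m)) := by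
    rintro ⟨m, hm⟩
    have h7 := e.injective hm
    have h8 : n = m := congrArg Prod.fst h7
    subst h8
    exact hxy n (congrArg Prod.snd h7).symm
  rw [decide_eq_true (⟨n, rfl⟩ : ∃ m, e (n, x n) = e (m, x m)), decide_eq_false h6] at h2
  exact Bool.false_ne_true h2.symm

theorem two_power_le_pow_omega {X : Cardinal.{u}} (hX : Bad X) :
    2 ^ X ≤ X ^ (ℵ₀ : Cardinal.{u}) := by
  obtain ⟨a, ha, ha2⟩ := ctblCof_of_cof hX.2.2
  refine (two_power_le_prod hX.1 ha2).trans ?_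
  rw [Cardinal.mk_pi]
  refine (Cardinal.prod_le_prod _ (fun _ => X) ?_).trans ?_
  · intro n
    rw [Cardinal.mk_set, Cardinal.mk_out]
    exact (hX.1.isStrongPrelimit (ha n)).le
  · rw [Cardinal.prod_const]
    simp

theorem star_of_sch (h : SCHc.{u}) (X : Type u) (hX : Bad #X) (L : Set (X → Bool)) (hL : CD L) :
    2 ^ #X ≤ #L := by
  have h1 : 𝔠 ≤ #X := by
    have := hX.1.isStrongPrelimit hX.2.1
    rw [Cardinal.two_power_aleph0] at this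
    exact this.le
  exact (two_power_le_pow_omega hX).trans ((h _ h1).trans (Order.succ_le_of_lt (dens_bad hX L hL)))

theorem sch_pow (h : SCHc.{u}) {κ : Cardinal.{u}} (hκ : 𝔠 ≤ κ) (hc : κ = 𝔠 ∨ ℵ₀ < κ.ord.cof) :
    κ ^ (ℵ₀ : Cardinal.{u}) ≤ κ := by
  rcases hκ.lt_or_eq with hlt | heq
  · have hc : ℵ₀ < κ.ord.cof := by
      rcases hc with h1 | h1
      · rw [h1] at hlt
        exact absurd hlt (lt_irrefl _)
      · exact h1
    refine pow_omega_le_of_cof hc (Cardinal.aleph0_le_continuum.trans hκ) ?_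
    intro c hck
    calc c ^ (ℵ₀ : Cardinal.{u}) ≤ (max c 𝔠) ^ (ℵ₀ : Cardinal.{u}) :=
          Cardinal.power_le_power_right (le_max_left _ _)
      _ ≤ Order.succ (max c 𝔠) := h _ (le_max_right _ _)
      _ ≤ κ := Order.succ_le_of_lt (max_lt hck hlt)
  · rw [← heq]
    exact cont_pow_aleph0.le

theorem exists_J {κ : Cardinal.{u}} (hκ : 𝔠 ≤ κ) (hbad : ∀ X, Bad X → X ≤ κ → 2 ^ X ≤ κ) :
    ∃ J : Cardinal.{u}, ℵ₁ ≤ J ∧ κ ≤ 2 ^ J ∧ J ^ (ℵ₀ : Cardinal.{u}) ≤ κ := by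
  obtain ⟨J0, hJ0, hmin⟩ := Cardinal.lt_wf.has_min {J : Cardinal.{u} | κ ≤ 2 ^ J}
    ⟨κ, (Cardinal.cantor κ).le⟩
  have hJ0 : κ ≤ 2 ^ J0 := hJ0
  have hmin' : ∀ J < J0, 2 ^ J < κ := fun J hJ => not_le.1 fun h => hmin J h hJ
  have hJκ : J0 ≤ κ := not_lt.1 fun h => hmin κ (Cardinal.cantor κ).le h
  rcases le_or_gt J0 ℵ₁ with h1 | h1
  · refine ⟨ℵ₁, le_rfl, hJ0.trans (Cardinal.power_le_power_left two_ne_zero h1), ?_⟩
    calc (ℵ₁ : Cardinal.{u}) ^ (ℵ₀ : Cardinal.{u}) ≤ 𝔠 ^ (ℵ₀ : Cardinal.{u}) :=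
          Cardinal.power_le_power_right Cardinal.aleph_one_le_continuum
      _ = 𝔠 := cont_pow_aleph0
      _ ≤ κ := hκ
  · have h0 : ℵ₀ < J0 := (Cardinal.aleph0_lt_aleph_one).trans h1
    refine ⟨J0, h1.le, hJ0, ?_⟩
    by_cases hs : ∃ μ < J0, J0 ≤ 2 ^ μ
    · obtain ⟨μ, hμ, hμ2⟩ := hs
      have h2 : max μ ℵ₀ < J0 := max_lt hμ h0
      calc J0 ^ (ℵ₀ : Cardinal.{u}) ≤ (2 ^ (max μ ℵ₀)) ^ (ℵ₀ : Cardinal.{u}) :=
            Cardinal.power_le_power_right (hμ2.trans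
              (Cardinal.power_le_power_left two_ne_zero (le_max_left _ _)))
        _ = 2 ^ (max μ ℵ₀) := two_pow_pow_aleph0 _ (le_max_right _ _)
        _ ≤ κ := (hmin' _ h2).le
    · push Not at hs
      have hsl : J0.IsStrongLimit := ⟨fun h => by rw [h] at h0; exact absurd h0 (not_lt.2 (zero_le)),
        fun x hx => hs x hx⟩
      rcases le_or_gt J0.ord.cof ℵ₀ with hc | hc
      · have hc' : J0.ord.cof = ℵ₀ := le_antisymm hc
          (by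
            have := Ordinal.one_lt_cof_iff.2 (Cardinal.isSuccLimit_ord h0.le)
            exact Ordinal.aleph0_le_cof_iff.2 this)
        calc J0 ^ (ℵ₀ : Cardinal.{u}) ≤ (2 ^ J0) ^ (ℵ₀ : Cardinal.{u}) :=
              Cardinal.power_le_power_right (Cardinal.cantor _).le
          _ = 2 ^ J0 := two_pow_pow_aleph0 _ h0.le
          _ ≤ κ := hbad J0 ⟨hsl, h0, hc'⟩ hJκ
      · refine (pow_omega_le_of_cof hc h0.le ?_).trans hJκ
        intro c hcJ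
        have h2 : max c ℵ₀ < J0 := max_lt hcJ h0
        calc c ^ (ℵ₀ : Cardinal.{u}) ≤ (2 ^ (max c ℵ₀)) ^ (ℵ₀ : Cardinal.{u}) :=
              Cardinal.power_le_power_right ((le_max_left _ _).trans (Cardinal.cantor _).le)
          _ = 2 ^ (max c ℵ₀) := two_pow_pow_aleph0 _ (le_max_right _ _)
          _ ≤ J0 := (hs _ h2).le

theorem injFam_mono {J : Type u} {κ μ : Cardinal.{u}} (h : InjFam J κ) (hκ : κ ≤ μ) :
    InjFam J μ := by
  obtain ⟨Δ, d, h1, h2⟩ := h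
  exact ⟨Δ, d, h1.trans hκ, h2⟩

theorem injFam_le {J : Type u} {μ : Cardinal.{u}} (h : InjFam J μ) (hμ : ℵ₀ ≤ μ) :
    #J ≤ 2 ^ μ := by
  obtain ⟨Δ, d, h1, h2⟩ := h
  have hinj : Function.Injective (fun (j : J) (p : Δ × ℕ) => decide (d p.1 j = p.2)) := by
    intro j j' hj
    obtain ⟨δ, hδ⟩ := h2 {j, j'} (Set.toFinite _).countable
    apply hδ (by simp) (by simp)
    have h3 := congrFun hj (δ, d δ j')
    simpa using h3
  refine (Cardinal.mk_le_of_injective hinj).trans ?_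
  have h3 : #(Δ × ℕ → Bool) = 2 ^ #(Δ × ℕ) := by simp
  rw [h3]
  apply Cardinal.power_le_power_left two_ne_zero
  rw [Cardinal.mk_prod]
  simp only [Cardinal.mk_nat, Cardinal.lift_aleph0, Cardinal.lift_uzero]
  calc #Δ * ℵ₀ ≤ μ * μ := by gcongr
    _ = μ := Cardinal.mul_eq_self hμ

theorem injFam_min {J : Type u} {κ : Cardinal.{u}} (h : InjFam J κ) (hκ : 𝔠 ≤ κ) :
    ∃ μ : Cardinal.{u}, 𝔠 ≤ μ ∧ μ ≤ κ ∧ #J ≤ 2 ^ μ ∧ (μ = 𝔠 ∨ ℵ₀ < μ.ord.cof) := by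
  obtain ⟨κ', hκ', hmin⟩ := Cardinal.lt_wf.has_min {κ' : Cardinal.{u} | InjFam J κ'} ⟨κ, h⟩
  have hκ' : InjFam J κ' := hκ'
  have hle : κ' ≤ κ := not_lt.1 fun h' => hmin κ h h'
  rcases le_or_gt κ' 𝔠 with h1 | h1
  · exact ⟨𝔠, le_rfl, hκ, injFam_le (injFam_mono hκ' h1) Cardinal.aleph0_le_continuum, Or.inl rfl⟩
  · refine ⟨κ', h1.le, hle, injFam_le hκ' (Cardinal.aleph0_le_continuum.trans h1.le), Or.inr ?_⟩
    by_contra hcon
    obtain ⟨Δ, d, hΔ, hd⟩ := hκ'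
    obtain ⟨D, hD1, hD2⟩ := exists_union (not_lt.1 hcon)
      (Cardinal.aleph0_le_continuum.trans h1.le) hΔ
    have h2 : ∀ n, ∃ A : Set J, A.Countable ∧ ∀ δ : D n, ¬ Set.InjOn (d δ.1) A := by
      intro n
      by_contra hcon2
      push Not at hcon2
      exact hmin #(D n) ⟨D n, fun δ => d δ.1, le_rfl, hcon2⟩ (hD1 n)
    choose A hA1 hA2 using h2
    obtain ⟨δ, hδ⟩ := hd (⋃ n, A n) (Set.countable_iUnion hA1)
    obtain ⟨n, hn⟩ := hD2 δ
    exact hA2 n ⟨δ, hn⟩ (hδ.mono (Set.subset_iUnion A n))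

theorem injFam_dense {J X : Type u} {κ : Cardinal.{u}} (h : InjFam J κ) (hκ : 𝔠 ≤ κ)
    (hX : #X ≤ #J) : ∃ L : Set (X → Bool), CD L ∧ #L ≤ κ := by
  classical
  obtain ⟨Δ, d, h1, h2⟩ := h
  obtain ⟨e⟩ : Nonempty (X ↪ J) := hX
  let Φ : Δ × ULift.{u} (ℕ → Bool) → (X → Bool) := fun p x => p.2.down (d p.1 (e x))
  refine ⟨Set.range Φ, ?_, ?_⟩
  · intro C hC b
    obtain ⟨δ, hδ⟩ := h2 (e '' C) (hC.image e)
    refine ⟨Φ (δ, ⟨fun k => decide (∃ x ∈ C, d δ (e x) = k ∧ b x = true)⟩), ⟨_, rfl⟩, ?_⟩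
    intro x hx
    show decide (∃ x' ∈ C, d δ (e x') = d δ (e x) ∧ b x' = true) = b x
    have key : ∀ x' ∈ C, d δ (e x') = d δ (e x) → x' = x := fun x' hx' h =>
      e.injective (hδ ⟨x', hx', rfl⟩ ⟨x, hx, rfl⟩ h)
    cases hb : b x
    · rw [decide_eq_false_iff_not]
      rintro ⟨x', hx', h3, h4⟩
      rw [key x' hx' h3, hb] at h4
      exact Bool.false_ne_true h4
    · rw [decide_eq_true_iff]
      exact ⟨x, hx, rfl, hb⟩
  · refine Cardinal.mk_range_le.trans ?_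
    have h3 : #(ULift.{u} (ℕ → Bool)) = 𝔠 := by simp
    rw [Cardinal.mk_prod, Cardinal.lift_id, Cardinal.lift_id, h3]
    calc #Δ * 𝔠 ≤ κ * κ := by gcongr
      _ = κ := Cardinal.mul_eq_self (Cardinal.aleph0_le_continuum.trans hκ)

end Pool.Agent.T9h66.SW
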