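import Pool.Agent.T9h66.SW.PrimeS
import Pool.Agent.H376R3.PC.Final

/-!
# The final topology
-/

set_option autoImplicit false

universe u

namespace Pool.Agent.T9h66.SW

open Cardinal Topology Filter Pool.Agent.H376R3.PC

theorem type0_lemmaS {𝒞 : Set (Filter ℕ)} (h6 : TaskPC6.{u}) {E M : Type u} [AddCommGroup E]
    (e : M → E) (he : LinearIndependent ℤ e)
    (hT : ∀ B : Type u, #B ≤ #E → TypeConcl 𝒞 M B) :
    ∃ (X : Type u) (φ : E →+ (X → T)) (Ξ : Type u) (s : Ξ → M),
      Function.Injective φ ∧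
      (∀ u : ℕ → Ξ, ∀ F ∈ 𝒞, ∃ F' ∈ 𝒞, F' ≤ F ∧ ∃ ξ, ∀ a,
        Tendsto (fun n => φ (e (s (u n))) a) F' (𝓝 (φ (e (s ξ)) a))) ∧
      ∀ A : Set X, A.Countable → ∀ v : X → T, ∃ ξ, ∀ a ∈ A, φ (e (s ξ)) a = v a := by
  classical
  have he' := he.linearIndepOn_id
  rw [linearIndepOn_iff] at he'
  obtain ⟨S, hS0, hS1, hS2⟩ := h6 E (Set.range e) (by
    intro c hc1 hc2 x
    have := he' c ((Finsupp.mem_supported ℤ c).2 hc1) (by
      rw [Finsupp.linearCombination_apply]; exact hc2)
    rw [this]; simp)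
  let e0 : M → S := fun m => ⟨e m, hS0 ⟨m, rfl⟩⟩
  have he0 : Function.Injective e0 := by
    intro m m' h
    have : e m = e m' := congrArg Subtype.val h
    exact he.injective this
  have hr : ∀ m, addOrderOf ((e0 m : S) : E) = 0 := by
    intro m
    have h1 : (addOrderOf (e m) : ℤ) • e m = 0 := by
      rw [natCast_zsmul]; exact addOrderOf_nsmul_eq_zero _
    have h2 := linearIndependent_iff.1 he (Finsupp.single m (addOrderOf (e m) : ℤ)) (by
      rw [Finsupp.linearCombination_single]; exact h1)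
    have h3 := DFunLike.congr_fun h2 m
    simpa using h3
  obtain ⟨X, ψ, Ξ, s, hψ0, hψ1, hψc, hψh⟩ := hT S
    (Cardinal.mk_le_of_injective Subtype.val_injective) 0
    (fun w => addOrderOf (w : E)) e0 he0 hr
  have hS1' : ∀ c : S →₀ ℤ, Finsupp.linearCombination ℤ (fun w : S => (w : E)) c = 0 →
      ∀ w, c w • (w : E) = 0 := by
    intro c hc w
    have h1 := hS1 (Finsupp.embDomain (Function.Embedding.subtype (· ∈ S)) c) (by
      rw [Finsupp.support_embDomain]
      intro x hx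
      simp only [Finset.coe_map, Set.mem_image] at hx
      obtain ⟨y, -, rfl⟩ := hx
      exact y.2) (by
      rw [Finsupp.sum_embDomain]
      rw [Finsupp.linearCombination_apply] at hc
      exact hc) (w : E)
    have h2 : (Finsupp.embDomain (Function.Embedding.subtype (· ∈ S)) c) (w : E) = c w :=
      Finsupp.embDomain_apply_self (Function.Embedding.subtype (· ∈ S)) c w
    rwa [h2] at h1
  have hker : ∀ c : S →₀ ℤ, Finsupp.linearCombination ℤ (fun w : S => (w : E)) c = 0 →
      Finsupp.linearCombination ℤ ψ c = 0 := by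
    intro c hc
    rw [Finsupp.linearCombination_apply]
    apply Finset.sum_eq_zero
    intro w _
    have h1 := addOrderOf_dvd_iff_zsmul_eq_zero.2 (hS1' c hc w)
    obtain ⟨k, hk⟩ := h1
    show c w • ψ w = 0
    rw [hk, mul_comm, mul_smul, Nat.cast_smul_eq_nsmul ℤ, hψ0, smul_zero]
  obtain ⟨φ, hφ⟩ := exists_ext
    (Finsupp.linearCombination ℤ (fun w : S => (w : E))).toAddMonoidHom
    (Finsupp.linearCombination ℤ ψ).toAddMonoidHom hker
  have hφ1 : ∀ w : S, φ (w : E) = ψ w := by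
    intro w
    have := hφ (Finsupp.single w 1)
    simpa using this
  refine ⟨X, φ, Ξ, s, ?_, ?_, ?_⟩
  · rw [injective_iff_map_eq_zero]
    intro x hx
    by_contra hx0
    obtain ⟨n, c, hn, hcS, hnc⟩ := hS2 x hx0
    apply hn
    -- restrict the combination to `S`
    let c' : S →₀ ℤ := c.subtypeDomain (· ∈ S)
    have h1 : Finsupp.linearCombination ℤ (fun w : S => (w : E)) c' = n • x := by
      rw [hnc, Finsupp.linearCombination_apply]
      exact Finsupp.sum_subtypeDomain_index (p := (· ∈ S)) (v := c) (h := fun x n => n • x)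
        (fun x hx => hcS hx)
    have h2 : Finsupp.linearCombination ℤ ψ c' = 0 := by
      have := hφ c'
      have h3 : φ (n • x) = 0 := by rw [map_zsmul, hx, smul_zero]
      rw [← h1] at h3
      exact this.symm.trans h3
    rw [← h1, Finsupp.linearCombination_apply]
    apply Finset.sum_eq_zero
    intro w _
    have h4 := hψ1 c' (by rw [Finsupp.linearCombination_apply] at h2; exact h2) w
    exact addOrderOf_dvd_iff_zsmul_eq_zero.1 h4
  · intro u F hF
    obtain ⟨F', hF', hle, ξ, hξ⟩ := hψc u F hF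
    refine ⟨F', hF', hle, ξ, fun a => ?_⟩
    have h2 : ∀ ξ, φ (e (s ξ)) a = ψ (e0 (s ξ)) a := fun ξ => congrFun (hφ1 (e0 (s ξ))) a
    simp only [h2]
    exact hξ a
  · intro A hA v
    obtain ⟨ξ, hξ⟩ := hψh A hA v (fun a => by simp)
    exact ⟨ξ, fun a ha => (congrFun (hφ1 (e0 (s ξ))) a).trans (hξ a ha)⟩

/-- the conclusion -/
def ConclS (𝒞 : Set (Filter ℕ)) (G : Type u) [AddCommGroup G] : Prop :=
  ∃ τ : TopologicalSpace G, @IsTopologicalAddGroup G τ _ ∧ @T2Space G τ ∧ @WinC 𝒞 G τ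

theorem concl_unboundedS {𝒞 : Set (Filter ℕ)} (h𝒞 : Cls 𝒞) {G : Type u} [AddCommGroup G]
    (hA : HypT 𝒞 G) (M : Type u) (e : M → G)
    (n0 : ℕ) (he : LinearIndependent ℤ e) (hn0 : 0 < n0) (hM : ℵ₀ ≤ #M)
    (hT0 : ∀ B : Type u, #B ≤ #(Set.range fun x : G => n0 • x) → TypeConcl 𝒞 M B) :
    ConclS 𝒞 G := by
  classical
  obtain ⟨N, hN, hmin⟩ : ∃ N : ℕ, 0 < N ∧ ∀ n : ℕ, 0 < n →
      #(Set.range fun x : G => N • x) ≤ #(Set.range fun x : G => n • x) := by
    obtain ⟨c, ⟨N, hN, rfl⟩, hc⟩ := Cardinal.lt_wf.has_min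
      {c | ∃ n : ℕ, 0 < n ∧ c = #(Set.range fun x : G => n • x)} ⟨_, 1, one_pos, rfl⟩
    exact ⟨N, hN, fun n hn => not_lt.1 (hc _ ⟨n, hn, rfl⟩)⟩
  obtain ⟨D, E0, I, hI, P, hE1, hE2, hP1, hP2, hP3, hDE, hess, hDinj, -⟩ := prime_partS hA N hN
  let e' : M → E0 := fun m => ⟨N • e m, hE1 _⟩
  have he' : LinearIndependent ℤ e' := by
    rw [linearIndependent_iff]
    intro l hl
    have h1 : Finsupp.linearCombination ℤ e ((N : ℤ) • l) = 0 := by
      rw [map_smul]
      have h2 := congrArg (fun z : E0 => (z : G)) hl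
      simp only [Finsupp.linearCombination_apply, Finsupp.sum, AddSubgroup.val_finsetSum,
        AddSubgroup.coe_zsmul, ZeroMemClass.coe_zero, e'] at h2
      rw [Finsupp.linearCombination_apply, Finsupp.sum, Finset.smul_sum, ← h2]
      apply Finset.sum_congr rfl
      intro m _
      rw [smul_comm, natCast_zsmul]
    have h2 := (linearIndependent_iff.1 he) _ h1
    have hN' : (N : ℤ) ≠ 0 := by exact_mod_cast hN.ne'
    ext m
    have h3 := DFunLike.congr_fun h2 m
    have h4 : (N : ℤ) * l m = 0 := by simpa using h3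
    exact (mul_eq_zero.1 h4).resolve_left hN'
  have hNe : #M ≤ #(Set.range fun x : G => N • x) :=
    Cardinal.mk_le_of_injective (f := fun m => ⟨N • e m, e m, rfl⟩) (by
      intro m m' hmm
      have h1 : e' m = e' m' := Subtype.ext (Subtype.mk.inj hmm)
      exact he'.injective h1)
  have hE3 : #E0 ≤ #(Set.range fun x : G => n0 • x) := by
    refine hE2.trans ?_
    rw [max_eq_right (hM.trans hNe)]
    exact hmin n0 hn0
  obtain ⟨X, φ, Ξ, s, hφ, hφc, hφh⟩ := type0_lemmaS pc6 e' he' (fun B hB => hT0 B (hB.trans hE3))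
  let Φ : D × E0 →+ G := D.subtype.coprod E0.subtype
  let Ψ : D × E0 →+ (X → T) := φ.comp (AddMonoidHom.snd _ _)
  obtain ⟨j0, hj0⟩ := exists_ext Φ Ψ (by
    rintro ⟨d, x⟩ h
    have h1 : (d : G) + (x : G) = 0 := h
    have h2 := hDE d d.2 x x.2 h1
    rw [h2, zero_add] at h1
    have h3 : x = 0 := Subtype.ext h1
    show φ x = 0
    rw [h3, map_zero])
  have hj0D : ∀ d ∈ D, j0 d = 0 := by
    intro d hd
    have := hj0 (⟨d, hd⟩, 0)
    simpa [Φ, Ψ] using this
  have hj0E : ∀ x : E0, j0 (x : G) = φ x := by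
    intro x
    have := hj0 (0, x)
    simpa [Φ, Ψ] using this
  let P0 : PieceS 𝒞 G :=
    { X := X
      j := j0
      Ξ := Ξ
      S := fun ξ => (e' (s ξ) : G)
      conv := by
        intro u F hF
        simp only [hj0E]
        exact hφc u F hF
      hit := by
        intro A hA x
        obtain ⟨ξ, hξ⟩ := hφh A hA (j0 x)
        exact ⟨ξ, fun a ha => by rw [hj0E, hξ a ha]⟩ }
  let P' : Option I → PieceS 𝒞 G := fun i => Option.elim i P0 P
  refine assemblyS h𝒞 P' ?_ PEmpty.{u+1} 0 {0} (Set.finite_singleton _) ?_ ?_ ?_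
  · intro i i' hne ξ
    rcases i with _ | i <;> rcases i' with _ | i'
    · exact absurd rfl hne
    · exact hP2 i' _
    · exact hj0D _ (hP3 i ξ)
    · exact hP1 i i' (fun h => hne (by rw [h])) ξ
  · intro x
    exact ⟨0, rfl, Subsingleton.elim _ _⟩
  · intro i ξ
    exact Subsingleton.elim _ _
  · intro x hx _
    by_contra hx0
    obtain ⟨n, d, y, hd, hy, hnx, hsum⟩ := hess x hx0
    have h1 : j0 (n • x) = 0 := by
      have := hx none
      rw [map_nsmul]
      show n • P0.j x = 0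
      have h2 : P0.j x = 0 := this
      rw [h2, smul_zero]
    rw [hsum, map_add, hj0D d hd, zero_add] at h1
    have h2 : φ ⟨y, hy⟩ = 0 := by rw [← hj0E]; exact h1
    have h3 : (⟨y, hy⟩ : E0) = 0 := (injective_iff_map_eq_zero φ).1 hφ _ h2
    have h4 : y = 0 := congrArg Subtype.val h3
    rw [h4, add_zero] at hsum
    apply hnx
    rw [hsum]
    apply hDinj d hd
    intro i
    rw [← hsum, map_nsmul]
    have h5 : (P i).j x = 0 := hx (some i)
    rw [h5, smul_zero]

theorem concl_boundedS {𝒞 : Set (Filter ℕ)} (h𝒞 : Cls 𝒞) {G : Type u} [AddCommGroup G]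
    (hA : HypT 𝒞 G) (N : ℕ) (hN : 0 < N)
    (hb : ∀ x : G, N • x = 0) : ConclS 𝒞 G := by
  classical
  obtain ⟨D, E0, I, hI, P, hE1, -, hP1, hP2, hP3, hDE, hess, hDinj, hfin⟩ := prime_partS hA N hN
  have hE0fin : Finite E0 := hfin hb
  have hχ : ∀ y : E0, ∃ χ : G →+ T, (∀ d ∈ D, χ d = 0) ∧ (χ (y : G) = 0 → y = 0) := by
    intro y
    obtain ⟨τ, hτ1, hτ2⟩ := exists_tau (addOrderOf (y : G))
    let Φ : D × ℤ →+ G := D.subtype.coprod (zmultiplesHom G (y : G))
    let Ψ : D × ℤ →+ (Unit → T) :=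
      (zmultiplesHom (Unit → T) (fun _ => τ)).comp (AddMonoidHom.snd _ _)
    obtain ⟨j, hj⟩ := exists_ext Φ Ψ (by
      rintro ⟨d, n⟩ h
      have h1 : (d : G) + n • (y : G) = 0 := h
      have h2 := hDE d d.2 _ (E0.zsmul_mem y.2 n) h1
      rw [h2, zero_add] at h1
      have h3 := addOrderOf_dvd_iff_zsmul_eq_zero.2 h1
      obtain ⟨m, hm⟩ := h3
      show n • (fun _ : Unit => τ) = 0
      funext _
      show n • τ = 0
      rw [hm, mul_comm, mul_smul, natCast_zsmul, hτ1, smul_zero])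
    refine ⟨(Pi.evalAddMonoidHom (fun _ : Unit => T) ()).comp j, ?_, ?_⟩
    · intro d hd
      have h1 := hj (⟨d, hd⟩, 0)
      have h2 : j d = 0 := by simpa [Φ, Ψ] using h1
      simp [h2]
    · intro h0
      have h1 := hj (0, 1)
      have h2 : j (y : G) = fun _ => τ := by simpa [Φ, Ψ] using h1
      have h3 : τ = 0 := by
        have : j (y : G) () = 0 := h0
        rw [h2] at this
        exact this
      have h4 := hτ2 1 (by rw [h3, smul_zero])
      have h5 : addOrderOf (y : G) = 1 := by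
        have := Int.eq_one_of_dvd_one (by positivity) h4
        exact_mod_cast this
      exact Subtype.ext (AddMonoid.addOrderOf_eq_one_iff.1 h5)
  choose χ hχ1 hχ2 using hχ
  let jf : G →+ (E0 → T) :=
    { toFun := fun x y => χ y x
      map_zero' := by funext y; simp
      map_add' := by intro a b; funext y; simp }
  have hrange : (Set.range jf).Finite := by
    have h1 : (Set.pi Set.univ fun _ : E0 => {u : T | N • u = 0}).Finite :=
      Set.Finite.pi fun _ => AddCircle.finite_torsion (1 : ℝ) hN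
    refine h1.subset ?_
    rintro _ ⟨x, rfl⟩ y _
    show N • χ y x = 0
    rw [← map_nsmul, hb, map_zero]
  let g : (E0 → T) → G := fun y => if h : ∃ x, jf x = y then h.choose else 0
  have hg : ∀ x, jf (g (jf x)) = jf x := by
    intro x
    have h : ∃ x', jf x' = jf x := ⟨x, rfl⟩
    simp only [g, h, dif_pos]
    exact h.choose_spec
  refine assemblyS h𝒞 P hP1 E0 jf (g '' Set.range jf) (hrange.image g) ?_ ?_ ?_
  · intro x
    exact ⟨g (jf x), ⟨jf x, ⟨x, rfl⟩, rfl⟩, hg x⟩
  · intro i ξ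
    funext y
    exact hχ1 y _ (hP3 i ξ)
  · intro x hx hx2
    by_contra hx0
    obtain ⟨n, d, y, hd, hy, hnx, hsum⟩ := hess x hx0
    have h1 : χ ⟨y, hy⟩ (n • x) = 0 := by
      rw [map_nsmul]
      have h2 : χ ⟨y, hy⟩ x = 0 := congrFun hx2 ⟨y, hy⟩
      rw [h2, smul_zero]
    rw [hsum, map_add, hχ1 _ d hd, zero_add] at h1
    have h3 := hχ2 ⟨y, hy⟩ h1
    have h4 : y = 0 := congrArg Subtype.val h3
    rw [h4, add_zero] at hsum
    apply hnx
    rw [hsum]
    apply hDinj d hd
    intro i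
    rw [← hsum, map_nsmul, hx i, smul_zero]


end Pool.Agent.T9h66.SW
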