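import Pool.Agent.T9h66.SW.Obs
import Pool.Agent.T9h66.SW.Card2
import Pool.Agent.T9h66.SW.BaseSeq
import Pool.Agent.T9h66.SW.BaseUlt
import Pool.Agent.T9h66.SW.FinalS

/-!
# The obstruction for multiples, the Boolean example, conversions
-/

set_option autoImplicit false

universe u

namespace Pool.Agent.T9h66.SW

open Cardinal Topology Set Filter Pool.Agent.H376R3.PC

theorem WinSp.map {X Y : Type u} [TopologicalSpace X] [TopologicalSpace Y] (h : WinSp X)
    (f : X → Y) (hf : Continuous f) (hs : Function.Surjective f) : WinSp Y := by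
  obtain ⟨s, hs1, hs2⟩ := h
  refine ⟨fun V => f (s (f ⁻¹' V)), ?_, ?_⟩
  · intro V hV hne
    exact hs1 (f ⁻¹' V) (hV.preimage hf) (hne.preimage hs)
  · intro V hV
    obtain ⟨x, hx⟩ := hs2 (fun n => f ⁻¹' (V n)) (fun n => ⟨(hV n).1.preimage hf,
      (hV n).2.preimage hs⟩)
    exact ⟨f x, hx.continuousAt_comp hf.continuousAt⟩

theorem obstruction_n {G : Type u} [AddCommGroup G] [TopologicalSpace G] [IsTopologicalAddGroup G]
    [T2Space G] (hW : WinSp G) (n : ℕ) (X : Cardinal.{u}) (hX : Bad X)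
    (hXG : X ≤ #(Set.range fun x : G => n • x)) : 2 ^ X ≤ #(Set.range fun x : G => n • x) := by
  let H : AddSubgroup G := (nsmulAddMonoidHom n : G →+ G).range
  have hH : (H : Set G) = Set.range fun x : G => n • x := rfl
  let f : G → H := fun x => ⟨n • x, x, rfl⟩
  have hf : Continuous f := Continuous.subtype_mk (by fun_prop) _
  have hfs : Function.Surjective f := by
    rintro ⟨y, x, rfl⟩
    exact ⟨x, rfl⟩
  exact obstruction (hW.map f hf hfs) X hX.1 hX.2.1 (ctblCof_of_cof hX.2.2) hXG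

theorem winSp_of_winC {q : Ultrafilter ℕ} (hq : (q : Filter ℕ) ≤ atTop) {X : Type u}
    [TopologicalSpace X] (h : WinC (CUlt q) X) : WinSp X := by
  obtain ⟨s, hs1, hs2⟩ := h
  refine ⟨s, hs1, fun U hU => ?_⟩
  obtain ⟨F, rfl, x, hx⟩ := hs2 U hU
  exact ⟨x, (Filter.Tendsto.mapClusterPt hx).mono hq⟩

/-- the player has a stationary strategy with convergent subsequences -/
def WinSsp (X : Type u) [TopologicalSpace X] : Prop :=
  ∃ s : Set X → X, (∀ U : Set X, IsOpen U → U.Nonempty → s U ∈ U) ∧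
    ∀ U : ℕ → Set X, (∀ n, IsOpen (U n) ∧ (U n).Nonempty) →
      ∃ (φ : ℕ → ℕ) (x : X), StrictMono φ ∧ Tendsto (fun k => s (U (φ k))) atTop (𝓝 x)

theorem winSsp_of_winC {X : Type u} [TopologicalSpace X] (h : WinC CSeq X) : WinSsp X := by
  obtain ⟨s, hs1, hs2⟩ := h
  refine ⟨s, hs1, fun U hU => ?_⟩
  obtain ⟨F, ⟨φ, hφ, rfl⟩, x, hx⟩ := hs2 U hU
  exact ⟨φ, x, hφ, hx⟩

theorem WinSsp.winSp {X : Type u} [TopologicalSpace X] (h : WinSsp X) : WinSp X := by
  obtain ⟨s, hs1, hs2⟩ := h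
  refine ⟨s, hs1, fun U hU => ?_⟩
  obtain ⟨φ, x, hφ, hx⟩ := hs2 U hU
  exact ⟨x, MapClusterPt.of_comp hφ.tendsto_atTop hx.mapClusterPt⟩

theorem bounded_of_dense {X : Type u} (G : AddSubgroup (X → ZMod 2))
    (hG : ∀ C : Set X, C.Countable → ∀ b : X → ZMod 2, ∃ g ∈ G, ∀ x ∈ C, g x = b x)
    (f : G → ℝ) (hf : Continuous f) : ∃ C : ℝ, ∀ x, |f x| ≤ C := by
  classical
  by_contra hcon
  push Not at hcon
  have hnb : ∀ (V : Set G), IsOpen V → ∀ x ∈ V, ∃ C : Finset X, ∀ y : G,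
      (∀ a ∈ C, (y : X → ZMod 2) a = (x : X → ZMod 2) a) → y ∈ V := by
    intro V hV x hx
    obtain ⟨O, hO, hOU⟩ := isOpen_induced_iff.1 hV
    have hxO : (x : X → ZMod 2) ∈ O := by
      have : x ∈ (Subtype.val : G → X → ZMod 2) ⁻¹' O := by rw [hOU]; exact hx
      exact this
    obtain ⟨Fn, u, hu, hsub⟩ := isOpen_pi_iff.1 hO (x : X → ZMod 2) hxO
    refine ⟨Fn, fun y hy => ?_⟩
    rw [← hOU]
    apply hsub
    intro a ha
    rw [hy a ha]
    exact (hu a ha).2
  choose x hx using fun n : ℕ => hcon n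
  choose C hC using fun n : ℕ => hnb {y : G | (n : ℝ) < |f y|}
    (isOpen_lt continuous_const hf.abs) (x n) (hx n)
  let Cs : Set X := ⋃ n, (↑(C n) : Set X)
  have hCs : Cs.Countable := Set.countable_iUnion fun n => (C n).countable_toSet
  obtain ⟨z, hz⟩ := exists_clusterPt_of_compactSpace
    (Filter.map (fun n => (x n : X → ZMod 2)) atTop)
  obtain ⟨y, hyG, hy⟩ := hG Cs hCs z
  obtain ⟨D, hD⟩ := hnb {w : G | |f w| < |f ⟨y, hyG⟩| + 1}
    (isOpen_lt hf.abs continuous_const) ⟨y, hyG⟩ (by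
      show |f ⟨y, hyG⟩| < |f ⟨y, hyG⟩| + 1
      linarith)
  have hN : {v : X → ZMod 2 | ∀ a ∈ D, v a = z a} ∈ 𝓝 z := by
    have h1 : IsOpen {v : X → ZMod 2 | ∀ a ∈ D, v a = z a} := by
      have h2 : {v : X → ZMod 2 | ∀ a ∈ D, v a = z a} = ⋂ a ∈ D, (fun v : X → ZMod 2 => v a) ⁻¹' {z a} := by
        ext v; simp
      rw [h2]
      exact isOpen_biInter_finset fun a _ => (isOpen_discrete _).preimage (continuous_apply a)
    exact h1.mem_nhds (fun a _ => rfl)
  obtain ⟨N, hN2⟩ := exists_nat_gt (|f ⟨y, hyG⟩| + 1)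
  have h3 : ∃ᶠ n in atTop, (x n : X → ZMod 2) ∈ {v : X → ZMod 2 | ∀ a ∈ D, v a = z a} :=
    mapClusterPt_iff_frequently.1 hz _ hN
  obtain ⟨n, hn1, hn2⟩ := Filter.frequently_atTop.1 h3 N
  obtain ⟨w, hwG, hw⟩ := hG (↑(C n) ∪ ↑D)
    ((C n).countable_toSet.union D.countable_toSet)
    (fun a => if a ∈ C n then (x n : X → ZMod 2) a else y a)
  have h4 : (n : ℝ) < |f ⟨w, hwG⟩| := hC n ⟨w, hwG⟩ (fun a ha => by
    show w a = _
    rw [hw a (Or.inl ha), if_pos ha])
  have h5 : |f ⟨w, hwG⟩| < |f ⟨y, hyG⟩| + 1 := hD ⟨w, hwG⟩ (fun a ha => by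
    show w a = y a
    rw [hw a (Or.inr ha)]
    split_ifs with h6
    · rw [hn2 a ha, hy a (Set.mem_iUnion.2 ⟨n, h6⟩)]
    · rfl)
  have h6 : (N : ℝ) ≤ n := by exact_mod_cast hn1
  linarith

theorem counterexample {X : Type u} (hX : Bad #X) (L : Set (X → Bool)) (hL : CD L)
    (hlt : ¬ 2 ^ #X ≤ #L) : ∃ (G : Type u) (_ : AddCommGroup G), (∀ x : G, x + x = 0) ∧
      (∃ τ : TopologicalSpace G, @IsTopologicalAddGroup G τ _ ∧ @T2Space G τ ∧
        ∀ f : G → ℝ, @Continuous _ _ τ _ f → ∃ C : ℝ, ∀ x, |f x| ≤ C) ∧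
      ∀ τ : TopologicalSpace G, @IsTopologicalAddGroup G τ _ → @T2Space G τ → ¬ @WinSp G τ := by
  classical
  let v : L ⊕ X → (X → ZMod 2) := Sum.elim (fun f x => if f.1 x then 1 else 0)
    (fun x => Pi.single x 1)
  let G : AddSubgroup (X → ZMod 2) := (Finsupp.linearCombination (ZMod 2) v).toAddMonoidHom.range
  have hv : ∀ i, v i ∈ G := by
    intro i
    refine ⟨Finsupp.single i 1, ?_⟩
    show Finsupp.linearCombination (ZMod 2) v (Finsupp.single i 1) = v i
    simp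
  have hG : ∀ C : Set X, C.Countable → ∀ b : X → ZMod 2, ∃ g ∈ G, ∀ x ∈ C, g x = b x := by
    intro C hC b
    obtain ⟨f, hf, hfb⟩ := hL C hC (fun x => decide (b x = 1))
    refine ⟨v (Sum.inl ⟨f, hf⟩), hv _, fun x hx => ?_⟩
    show (if f x then (1 : ZMod 2) else 0) = b x
    rw [hfb x hx]
    have h2 : ∀ c : ZMod 2, (if decide (c = 1) = true then (1 : ZMod 2) else 0) = c := by decide
    exact h2 (b x)
  have hXinf : Infinite X := Cardinal.infinite_iff.2 hX.2.1.le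
  have hGX : #X ≤ #G := by
    refine Cardinal.mk_le_of_injective (f := fun x => (⟨v (Sum.inr x), hv _⟩ : G)) ?_
    intro x y hxy
    have h1 : (Pi.single x 1 : X → ZMod 2) = Pi.single y 1 := congrArg Subtype.val hxy
    by_contra hne
    have h2 := congrFun h1 x
    rw [Pi.single_eq_same, Pi.single_eq_of_ne hne] at h2
    exact one_ne_zero h2
  have hGle : #G < 2 ^ #X := by
    have h1 : #G ≤ #((L ⊕ X) →₀ ZMod 2) := Cardinal.mk_le_of_surjective
      (f := (Finsupp.linearCombination (ZMod 2) v).toAddMonoidHom.rangeRestrict)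
      (AddMonoidHom.rangeRestrict_surjective _)
    have h2 : #((L ⊕ X) →₀ ZMod 2) = #(L ⊕ X) := by
      rw [Cardinal.mk_finsupp_lift_of_infinite]
      simp only [Cardinal.lift_uzero]
      apply max_eq_left
      have h3 : Cardinal.lift.{u} #(ZMod 2) ≤ ℵ₀ := by
        rw [Cardinal.lift_le_aleph0]
        exact (Cardinal.lt_aleph0_of_finite (ZMod 2)).le
      exact h3.trans (Cardinal.aleph0_le_mk _)
    rw [h2] at h1
    refine h1.trans_lt ?_
    rw [Cardinal.mk_sum, Cardinal.lift_id, Cardinal.lift_id]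
    exact Cardinal.add_lt_of_lt (hX.2.1.le.trans (Cardinal.cantor _).le) (not_le.1 hlt)
      (Cardinal.cantor _)
  refine ⟨G, inferInstance, ?_, ?_, ?_⟩
  · intro x
    apply Subtype.ext
    funext a
    show (x : X → ZMod 2) a + (x : X → ZMod 2) a = 0
    have : ∀ c : ZMod 2, c + c = 0 := by decide
    exact this _
  · exact ⟨inferInstance, inferInstance, inferInstance, bounded_of_dense G hG⟩
  · intro τ hτ1 hτ2 hW
    have := obstruction hW #X hX.1 hX.2.1 (ctblCof_of_cof hX.2.2) hGX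
    exact absurd hGle (not_lt.2 this)

end Pool.Agent.T9h66.SW
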