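import Mathlib

/-!
# Cardinal arithmetic
-/

set_option autoImplicit false

universe u

namespace Pool.Agent.T9h66.SW

open Cardinal Set Ordinal

/-- countable cofinality -/
def CtblCof (X : Cardinal.{u}) : Prop :=
  ∃ a : ℕ → Cardinal.{u}, (∀ n, a n < X) ∧ ∀ c < X, ∃ n, c ≤ a n

theorem ctblCof_of_cof {X : Cardinal.{u}} (h : X.ord.cof = ℵ₀) : CtblCof X := by
  obtain ⟨S, hS, hS'⟩ := Order.exists_cof_eq X.ord.ToType
  rw [Ordinal.cof_toType, h] at hS'
  have hne : Nonempty S := by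
    rw [← Cardinal.mk_ne_zero_iff, hS']
    exact Cardinal.aleph0_ne_zero
  have hct : Countable S := Cardinal.mk_le_aleph0_iff.1 hS'.le
  obtain ⟨f, hf⟩ := exists_surjective_nat S
  refine ⟨fun n => (ToType.toOrd (f n : X.ord.ToType)).1.card, fun n => ?_, fun c hc => ?_⟩
  · exact Cardinal.lt_ord.1 (ToType.toOrd (f n : X.ord.ToType)).2
  · have h1 : c.ord < X.ord := Cardinal.ord_lt_ord.2 hc
    obtain ⟨b, hb, hb2⟩ := hS (ToType.mk ⟨c.ord, h1⟩)
    obtain ⟨n, hn⟩ := hf ⟨b, hb⟩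
    refine ⟨n, ?_⟩
    show c ≤ (ToType.toOrd (f n : X.ord.ToType)).1.card
    rw [hn]
    have h2 : (⟨c.ord, h1⟩ : Set.Iio X.ord) ≤ ToType.toOrd b := by
      have := ToType.mk.symm.le_iff_le.2 hb2
      simpa using this
    have h3 : c.ord ≤ (ToType.toOrd b).1 := h2
    have h4 := Ordinal.card_le_card h3
    rwa [Cardinal.card_ord] at h4

theorem two_power_le_prod {X : Cardinal.{u}} (hX : Cardinal.IsStrongLimit X)
    {a : ℕ → Cardinal.{u}} (ha : ∀ c < X, ∃ n, c ≤ a n) :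
    2 ^ X ≤ #(∀ n, Set (a n).out) := by
  have h1 : #(∀ n, Set (a n).out) = Cardinal.prod (fun n => (2 : Cardinal.{u}) ^ (a n)) := by
    rw [Cardinal.mk_pi]
    congr 1
    funext n
    simp
  have h2 : X ≤ Cardinal.sum a := by
    by_contra hcon
    have h3 := not_le.1 hcon
    have h4 : Order.succ (Cardinal.sum a) < X := hX.isSuccLimit.succ_lt h3
    obtain ⟨n, hn⟩ := ha _ h4
    have h5 : a n ≤ Cardinal.sum a := Cardinal.le_sum a n
    exact absurd (Order.lt_succ (Cardinal.sum a)) (not_lt.2 (hn.trans h5))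
  rw [h1]
  have h3 := Cardinal.power_sum.{0, u} (2 : Cardinal.{u}) a
  rw [← h3]
  exact Cardinal.power_le_power_left two_ne_zero h2

end Pool.Agent.T9h66.SW
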