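import Mathlib

/-!
# Stationary winning strategies: the obstruction (core)

If a player has a stationary strategy all of whose runs have accumulation points, then a space with
many large `T2` open images has many points: the accumulation points of suitable runs are pairwise
distinct. The proof is by a closed game on trees of open sets (commitments to the images of the
future moves of the strategy).
-/

set_option autoImplicit false

universe u

namespace Pool.Agent.T9h66.SW

open Cardinal Topology Set Filter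

section core

variable {G : Type u} [TopologicalSpace G] {M : ℕ → Type u} [∀ k, TopologicalSpace (M k)]

/-- the moves of level `k`: a set and a prediction of the images of the answers -/
abbrev Move (M : ℕ → Type u) (k : ℕ) : Type u := Set (M k) × (ℕ → M k)

/-- histories -/
abbrev Hist (M : ℕ → Type u) : Type u := ∀ k, Move M k

/-- the open set after `j` moves -/
def UU (π : ∀ k, G → M k) (h : Hist M) : ℕ → Set G
  | 0 => univ
  | (j + 1) => UU π h j ∩ π j ⁻¹' (h j).1

omit [TopologicalSpace G] [∀ k, TopologicalSpace (M k)] in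
theorem UU_congr (π : ∀ k, G → M k) (h h' : Hist M) (j : ℕ) (hh : ∀ k < j, (h k).1 = (h' k).1) :
    UU π h j = UU π h' j := by
  induction j with
  | zero => rfl
  | succ j ih =>
    simp only [UU]
    rw [ih (fun k hk => hh k (Nat.lt_succ_of_lt hk)), hh j (Nat.lt_succ_self j)]

omit [TopologicalSpace G] [∀ k, TopologicalSpace (M k)] in
theorem UU_sub (π : ∀ k, G → M k) (h : Hist M) {m j : ℕ} (hm : m < j) :
    UU π h j ⊆ π m ⁻¹' (h m).1 := by
  induction j with
  | zero => omega
  | succ j ih =>
    intro x hx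
    rcases Nat.lt_succ_iff_lt_or_eq.1 hm with h1 | h1
    · exact ih h1 hx.1
    · subst h1
      exact hx.2

/-- legal moves -/
def Legal (π : ∀ k, G → M k) (h : Hist M) (j : ℕ) (E : Set (M j)) (m : Move M j) : Prop :=
  IsOpen m.1 ∧ m.1.Nonempty ∧ m.1 ⊆ π j '' UU π h j ∧ Disjoint (closure m.1) E

/-- the predictions are right at level `j` -/
def Matched (π : ∀ k, G → M k) (s : Set G → G) (h : Hist M) (j : ℕ) : Prop :=
  ∀ m < j, π m (s (UU π h j)) = (h m).2 j

/-- the first player (who forbids small sets) wins from the position `(j, h)` -/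
def WinI (π : ∀ k, G → M k) (s : Set G → G) (lam : ℕ → Cardinal.{u}) (j : ℕ) (h : Hist M) : Prop :=
  ∃ σ : ∀ i, Hist M → Set (M i),
    (∀ i h' h'', (∀ k < i, h' k = h'' k) → σ i h' = σ i h'') ∧
    (∀ i h', #(σ i h') ≤ lam i) ∧
    ∀ h', (∀ k < j, h' k = h k) → (∀ i ≥ j, Legal π h' i (σ i h') (h' i)) →
      ∃ i ≥ j, ¬ Matched π s h' i

/-- the hypotheses -/
structure CoreHyp (π : ∀ k, G → M k) (lam : ℕ → Cardinal.{u}) : Prop where
  cont : ∀ k, Continuous (π k)
  isOpenMap : ∀ k, IsOpenMap (π k)
  t2 : ∀ k, T2Space (M k)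
  dens : ∀ k (O : Set (M k)), IsOpen O → O.Nonempty → ∀ E : Set (M k), #E ≤ lam k →
    ∃ W ⊆ O, IsOpen W ∧ W.Nonempty ∧ Disjoint (closure W) E
  inf : ∀ k, ℵ₀ ≤ lam k
  big : ∀ k, (2 : Cardinal.{u}) ^ ((2 : Cardinal.{u}) ^ ℵ₀) ≤ lam k
  mono : Monotone lam
  cnt : ∀ k, #(ℕ → M k) ≤ lam (k + 1)

theorem Legal.congr {π : ∀ k, G → M k} {h h' : Hist M} {j : ℕ} {E : Set (M j)} {m : Move M j}
    (hh : ∀ k < j, h k = h' k) (hl : Legal π h j E m) : Legal π h' j E m := by
  unfold Legal at *
  rw [← UU_congr π h h' j (fun k hk => by rw [hh k hk])]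
  exact hl

theorem Matched.congr {π : ∀ k, G → M k} {s : Set G → G} {h h' : Hist M} {j : ℕ}
    (hh : ∀ k < j, h k = h' k) (hl : Matched π s h j) : Matched π s h' j := by
  intro m hm
  rw [← UU_congr π h h' j (fun k hk => by rw [hh k hk]), hl m hm, hh m hm]

/-- alive positions -/
def Alive (π : ∀ k, G → M k) (s : Set G → G) (lam : ℕ → Cardinal.{u}) (j : ℕ) (h : Hist M) : Prop :=
  IsOpen (UU π h j) ∧ (UU π h j).Nonempty ∧ ¬ WinI π s lam j h

variable {π : ∀ k, G → M k} {s : Set G → G} {lam : ℕ → Cardinal.{u}}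

theorem Alive.matched {j : ℕ} {h : Hist M} (ha : Alive π s lam j h) : Matched π s h j := by
  by_contra hcon
  apply ha.2.2
  refine ⟨fun i _ => ∅, fun _ _ _ _ => rfl, fun i _ => by simp, ?_⟩
  intro h' hh _
  refine ⟨j, le_rfl, fun hm => hcon (hm.congr hh)⟩

theorem Alive.step (hC : CoreHyp π lam) {j : ℕ} {h : Hist M} (ha : Alive π s lam j h)
    (E : Set (M j)) (hE : #E ≤ lam j) :
    ∃ m : Move M j, Legal π h j E m ∧ Alive π s lam (j + 1) (Function.update h j m) := by
  classical
  have hU : ∀ m : Move M j, UU π (Function.update h j m) (j + 1) = UU π h j ∩ π j ⁻¹' m.1 := by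
    intro m
    simp only [UU, Function.update_self]
    rw [UU_congr π (Function.update h j m) h j (fun k hk => by
      rw [Function.update_of_ne hk.ne])]
  have hgood : ∀ m : Move M j, Legal π h j E m →
      IsOpen (UU π (Function.update h j m) (j + 1)) ∧
      (UU π (Function.update h j m) (j + 1)).Nonempty := by
    intro m hm
    rw [hU]
    refine ⟨ha.1.inter (hm.1.preimage (hC.cont j)), ?_⟩
    obtain ⟨y, hy⟩ := hm.2.1
    obtain ⟨x, hx, rfl⟩ := hm.2.2.1 hy
    exact ⟨x, hx, hy⟩
  by_contra hcon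
  push Not at hcon
  apply ha.2.2
  have hW : ∀ m : Move M j, Legal π h j E m → WinI π s lam (j + 1) (Function.update h j m) := by
    intro m hm
    by_contra hw
    exact hcon m hm ⟨(hgood m hm).1, (hgood m hm).2, hw⟩
  choose! τ hτ1 hτ2 hτ3 using hW
  let σ : ∀ i, Hist M → Set (M i) := fun i h' =>
    Function.update (fun i => if i < j then (∅ : Set (M i)) else
      if Legal π h j E (h' j) then τ (h' j) i h' else ∅) j E i
  have hσj : ∀ h', σ j h' = E := fun h' => by simp [σ]
  have hσlt : ∀ i h', i < j → σ i h' = ∅ := fun i h' hi => by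
    simp only [σ]
    rw [Function.update_of_ne hi.ne]
    simp [hi]
  have hσgt : ∀ i h', j < i → Legal π h j E (h' j) → σ i h' = τ (h' j) i h' := fun i h' hi hl => by
    simp only [σ]
    rw [Function.update_of_ne hi.ne']
    simp [hi.not_gt, hl]
  have hσgt' : ∀ i h', j < i → ¬ Legal π h j E (h' j) → σ i h' = ∅ := fun i h' hi hl => by
    simp only [σ]
    rw [Function.update_of_ne hi.ne']
    simp [hi.not_gt, hl]
  refine ⟨σ, ?_, ?_, ?_⟩
  · intro i h' h'' hh
    rcases lt_trichotomy i j with hi | hi | hi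
    · rw [hσlt i h' hi, hσlt i h'' hi]
    · subst hi
      rw [hσj, hσj]
    · by_cases hl : Legal π h j E (h' j)
      · have hl' : Legal π h j E (h'' j) := by rw [← hh j hi]; exact hl
        rw [hσgt i h' hi hl, hσgt i h'' hi hl', ← hh j hi]
        exact hτ1 (h' j) hl i h' h'' hh
      · have hl' : ¬ Legal π h j E (h'' j) := by rw [← hh j hi]; exact hl
        rw [hσgt' i h' hi hl, hσgt' i h'' hi hl']
  · intro i h'
    rcases lt_trichotomy i j with hi | hi | hi
    · rw [hσlt i h' hi]; simp
    · subst hi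
      rw [hσj]; exact hE
    · by_cases hl : Legal π h j E (h' j)
      · rw [hσgt i h' hi hl]
        exact hτ2 (h' j) hl i h'
      · rw [hσgt' i h' hi hl]; simp
  · intro h' hh hleg
    have h1 : Legal π h j E (h' j) := by
      have := hleg j le_rfl
      rw [hσj] at this
      exact this.congr hh
    obtain ⟨i, hi, hm⟩ := hτ3 (h' j) h1 h' (by
      intro k hk
      rcases Nat.lt_succ_iff_lt_or_eq.1 hk with h2 | h2
      · rw [Function.update_of_ne h2.ne, hh k h2]
      · subst h2
        rw [Function.update_self]) (by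
      intro i hi
      have h2 := hleg i (by omega)
      rw [hσgt i h' hi h1] at h2
      exact h2)
    exact ⟨i, by omega, hm⟩

end core

/-- sequences with a local requirement on each term -/
theorem exists_dep_seq {α : ℕ → Type u} [∀ k, Nonempty (α k)]
    (P : ∀ j, (∀ k, α k) → α j → Prop)
    (hloc : ∀ j f g a, (∀ k < j, f k = g k) → P j f a → P j g a)
    (hex : ∀ j f, (∀ k < j, P k f (f k)) → ∃ a, P j f a) : ∃ f, ∀ j, P j f (f j) := by
  classical
  let nx : ∀ j, (∀ k, α k) → α j := fun j f =>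
    if h : ∃ a, P j f a then h.choose else Classical.arbitrary _
  let F : ℕ → (∀ k, α k) := fun j => Nat.rec (fun _ => Classical.arbitrary _)
    (fun j f => Function.update f j (nx j f)) j
  have hF : ∀ j, F (j + 1) = Function.update (F j) j (nx j (F j)) := fun j => rfl
  have hF2 : ∀ j k, k < j → F j k = F (k + 1) k := by
    intro j
    induction j with
    | zero => intro k hk; omega
    | succ j ih =>
      intro k hk
      rcases Nat.lt_succ_iff_lt_or_eq.1 hk with h | h
      · rw [hF, Function.update_of_ne h.ne, ih k h]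
      · subst h; rfl
  let f : ∀ k, α k := fun k => F (k + 1) k
  refine ⟨f, ?_⟩
  intro j
  induction j using Nat.strong_induction_on with
  | _ j ih =>
    have h1 : ∀ k < j, P k (F j) (F j k) := by
      intro k hk
      have h2 := ih k hk
      rw [hF2 j k hk]
      refine hloc k f (F j) _ ?_ h2
      intro i hi
      exact (hF2 j i (hi.trans hk)).symm
    have h3 : P j (F j) (nx j (F j)) := by
      simp only [nx]
      rw [dif_pos (hex j (F j) h1)]
      exact (hex j (F j) h1).choose_spec
    have h4 : f j = nx j (F j) := by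
      show F (j + 1) j = _
      rw [hF, Function.update_self]
    rw [h4]
    refine hloc j (F j) f _ ?_ h3
    intro k hk
    exact hF2 j k hk

section core2

variable {G : Type u} [TopologicalSpace G] {M : ℕ → Type u} [∀ k, TopologicalSpace (M k)]
variable {π : ∀ k, G → M k} {s : Set G → G} {lam : ℕ → Cardinal.{u}}

theorem mk_pi_le (hC : CoreHyp π lam) (j : ℕ) : #(∀ k : Fin j, ℕ → M k) ≤ lam j := by
  cases j with
  | zero =>
    have : #(∀ k : Fin 0, ℕ → M k) = 1 := Cardinal.mk_eq_one _
    rw [this]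
    exact (Cardinal.one_lt_aleph0.le).trans (hC.inf 0)
  | succ j =>
    rw [Cardinal.mk_pi]
    refine (Cardinal.prod_le_prod _ (fun _ => lam (j + 1)) ?_).trans ?_
    · intro k
      exact (hC.cnt k).trans (hC.mono (by omega))
    · rw [Cardinal.prod_const]
      simp only [Cardinal.mk_fin, Cardinal.lift_natCast, Cardinal.lift_uzero]
      exact Cardinal.power_nat_le (hC.inf _)

theorem not_winI_zero [Nonempty G] (hC : CoreHyp π lam) (h : Hist M) :
    ¬ WinI π s lam 0 h := by
  classical
  rintro ⟨σ, hσ1, hσ2, hσ3⟩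
  have hne : ∀ k, Nonempty (M k) := fun k => ⟨π k (Classical.arbitrary G)⟩
  let hist : (∀ k, Set (M k)) → (∀ k, ℕ → M k) → Hist M := fun f c k => (f k, c k)
  let c0 : ∀ k, ℕ → M k := fun k _ => Classical.arbitrary _
  have hUc : ∀ f c j, UU π (hist f c) j = UU π (hist f c0) j := fun f c j =>
    UU_congr π _ _ j (fun k _ => rfl)
  obtain ⟨f, hf⟩ := exists_dep_seq (α := fun k => Set (M k))
    (fun j f a => IsOpen (UU π (hist f c0) j) → (UU π (hist f c0) j).Nonempty →
      (IsOpen a ∧ a.Nonempty ∧ a ⊆ π j '' UU π (hist f c0) j ∧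
        ∀ c, Disjoint (closure a) (σ j (hist f c)))) (by
      intro j f g a hfg hP hg1 hg2
      have h1 : UU π (hist f c0) j = UU π (hist g c0) j :=
        UU_congr π _ _ j (fun k hk => hfg k hk)
      have h2 : ∀ c, σ j (hist f c) = σ j (hist g c) := fun c =>
        hσ1 j _ _ (fun k hk => by simp only [hist, hfg k hk])
      rw [← h1] at hg1 hg2 ⊢
      obtain ⟨h3, h4, h5, h6⟩ := hP hg1 hg2
      exact ⟨h3, h4, h5, fun c => by rw [← h2]; exact h6 c⟩) (by
      intro j f _
      by_cases hg1 : IsOpen (UU π (hist f c0) j)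
      swap
      · exact ⟨∅, fun h => absurd h hg1⟩
      by_cases hg2 : (UU π (hist f c0) j).Nonempty
      swap
      · exact ⟨∅, fun _ h => absurd h hg2⟩
      let ext : (∀ k : Fin j, ℕ → M k) → (∀ k, ℕ → M k) := fun c k =>
        if hk : k < j then c ⟨k, hk⟩ else c0 k
      let E : Set (M j) := ⋃ c : (∀ k : Fin j, ℕ → M k), σ j (hist f (ext c))
      have hE : #E ≤ lam j := by
        refine (Cardinal.mk_iUnion_le _).trans ?_
        have h1 : ⨆ c : (∀ k : Fin j, ℕ → M k), #(σ j (hist f (ext c))) ≤ lam j :=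
          ciSup_le' fun c => hσ2 _ _
        exact (mul_le_mul' (mk_pi_le hC j) h1).trans (Cardinal.mul_eq_self (hC.inf j)).le
      obtain ⟨W, hW1, hW2, hW3, hW4⟩ := hC.dens j (π j '' UU π (hist f c0) j)
        (hC.isOpenMap j _ hg1) (hg2.image _) E hE
      refine ⟨W, fun _ _ => ⟨hW2, hW3, hW1, fun c => ?_⟩⟩
      have h1 : σ j (hist f c) = σ j (hist f (ext fun k => c k)) := by
        apply hσ1
        intro k hk
        simp only [hist, ext, hk, dif_pos]
      rw [h1]
      exact hW4.mono_right (Set.subset_iUnion (fun c : (∀ k : Fin j, ℕ → M k) =>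
        σ j (hist f (ext c))) (fun k => c k)))
  have hgood : ∀ j, IsOpen (UU π (hist f c0) j) ∧ (UU π (hist f c0) j).Nonempty := by
    intro j
    induction j with
    | zero => exact ⟨isOpen_univ, univ_nonempty⟩
    | succ j ih =>
      obtain ⟨h1, h2, h3, -⟩ := hf j ih.1 ih.2
      refine ⟨ih.1.inter (h1.preimage (hC.cont j)), ?_⟩
      obtain ⟨y, hy⟩ := h2
      obtain ⟨x, hx, rfl⟩ := h3 hy
      exact ⟨x, hx, hy⟩
  let c : ∀ k, ℕ → M k := fun k n => π k (s (UU π (hist f c0) n))
  obtain ⟨i, -, hi⟩ := hσ3 (hist f c) (fun k hk => absurd hk (Nat.not_lt_zero k)) (by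
    intro i _
    obtain ⟨h1, h2, h3, h4⟩ := hf i (hgood i).1 (hgood i).2
    refine ⟨h1, h2, ?_, h4 c⟩
    rw [hUc]
    exact h3)
  apply hi
  intro m _
  rw [hUc]

/-- the set of accumulation points of a sequence -/
def Lim {Y : Type u} [TopologicalSpace Y] (c : ℕ → Y) : Set Y := {y | MapClusterPt y atTop c}

theorem mk_Lim_le {Y : Type u} [TopologicalSpace Y] [T2Space Y] (c : ℕ → Y) :
    #(Lim c) ≤ (2 : Cardinal.{u}) ^ ((2 : Cardinal.{u}) ^ ℵ₀) := by
  have h1 : ∀ y : Lim c, ∃ 𝓤 : Ultrafilter ℕ, Tendsto c 𝓤 (𝓝 (y : Y)) := by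
    rintro ⟨y, hy⟩
    obtain ⟨𝓤, -, h⟩ := mapClusterPt_iff_ultrafilter.1 hy
    exact ⟨𝓤, h⟩
  choose F hF using h1
  have hinj : Function.Injective (fun y : Lim c =>
      ULift.up.{u} ({A : Set ℕ | A ∈ F y} : Set (Set ℕ))) := by
    intro y y' hyy
    have h2 : F y = F y' := by
      apply Ultrafilter.coe_injective
      ext A
      have h3 : ({A : Set ℕ | A ∈ F y} : Set (Set ℕ)) = {A : Set ℕ | A ∈ F y'} :=
        congrArg ULift.down hyy
      have h4 : A ∈ ({A : Set ℕ | A ∈ F y} : Set (Set ℕ)) ↔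
          A ∈ ({A : Set ℕ | A ∈ F y'} : Set (Set ℕ)) := by rw [h3]
      exact h4
    have h3 := hF y'
    rw [← h2] at h3
    exact Subtype.ext (tendsto_nhds_unique (hF y) h3)
  have h2 := Cardinal.mk_le_of_injective hinj
  refine h2.trans (le_of_eq ?_)
  simp

theorem Alive.exists_ext (hC : CoreHyp π lam) {j : ℕ} {h : Hist M} (ha : Alive π s lam j h)
    (n : ℕ) : ∃ h' : Hist M, (∀ k < j, h' k = h k) ∧ Alive π s lam (j + n) h' := by
  classical
  induction n with
  | zero => exact ⟨h, fun _ _ => rfl, ha⟩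
  | succ n ih =>
    obtain ⟨h', h1, h2⟩ := ih
    obtain ⟨m, -, h3⟩ := h2.step hC ∅ (by simp)
    refine ⟨Function.update h' (j + n) m, ?_, h3⟩
    intro k hk
    rw [Function.update_of_ne (by omega), h1 k hk]

theorem Alive.lim_sub (hC : CoreHyp π lam)
    (hs : ∀ U : Set G, IsOpen U → U.Nonempty → s U ∈ U) {j : ℕ} {h : Hist M}
    (ha : Alive π s lam (j + 1) h) : Lim (h j).2 ⊆ closure (h j).1 := by
  have h1 : ∀ n, (h j).2 (j + 1 + n) ∈ (h j).1 := by
    intro n
    obtain ⟨h', hh, ha'⟩ := ha.exists_ext hC n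
    have h2 := ha'.matched j (by omega)
    rw [hh j (by omega)] at h2
    rw [← h2]
    have h3 := UU_sub π h' (m := j) (j := j + 1 + n) (by omega) (hs _ ha'.1 ha'.2.1)
    rw [hh j (by omega)] at h3
    exact h3
  intro y hy
  have h2 : ∀ᶠ n in atTop, (h j).2 n ∈ (h j).1 := by
    filter_upwards [eventually_ge_atTop (j + 1)] with n hn
    obtain ⟨k, rfl⟩ := Nat.exists_eq_add_of_le hn
    exact h1 k
  rw [mem_closure_iff_clusterPt]
  exact ClusterPt.mono hy (by
    rw [le_principal_iff]
    exact h2)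

/-- many continuations with disjoint sets of accumulation points -/
theorem Alive.family (hC : CoreHyp π lam)
    (hs : ∀ U : Set G, IsOpen U → U.Nonempty → s U ∈ U) {j : ℕ} {h : Hist M}
    (ha : Alive π s lam j h) (I : Type u) (hI : #I ≤ lam j) :
    ∃ p : I → Move M j, (∀ i, Alive π s lam (j + 1) (Function.update h j (p i))) ∧
      ∀ i i', i ≠ i' → Disjoint (Lim (p i).2) (Lim (p i').2) := by
  classical
  have hT2 := hC.t2 j
  let r : I → I → Prop := WellOrderingRel
  have hwf : WellFounded r := WellOrderingRel.isWellOrder.wf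
  have hstep : ∀ (i : I) (prev : ∀ i', r i' i → Move M j), ∃ m : Move M j,
      Legal π h j (⋃ i' : {i' // r i' i}, Lim (prev i'.1 i'.2).2) m ∧
      Alive π s lam (j + 1) (Function.update h j m) := by
    intro i prev
    apply ha.step hC
    refine (Cardinal.mk_iUnion_le _).trans ?_
    have h1 : ⨆ i' : {i' // r i' i}, #(Lim (prev i'.1 i'.2).2) ≤ lam j :=
      ciSup_le' fun i' => (mk_Lim_le _).trans (hC.big j)
    have h2 : #{i' // r i' i} ≤ lam j :=
      (Cardinal.mk_le_of_injective Subtype.val_injective).trans hI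
    exact (mul_le_mul' h2 h1).trans (Cardinal.mul_eq_self (hC.inf j)).le
  choose st hst1 hst2 using hstep
  let p : I → Move M j := hwf.fix st
  have hp : ∀ i, p i = st i (fun i' _ => p i') := fun i => hwf.fix_eq st i
  have hal : ∀ i, Alive π s lam (j + 1) (Function.update h j (p i)) := by
    intro i
    rw [hp]
    exact hst2 _ _
  refine ⟨p, hal, ?_⟩
  have key : ∀ i i', r i' i → Disjoint (Lim (p i).2) (Lim (p i').2) := by
    intro i i' hr
    have h1 := (hst1 i (fun i' _ => p i')).2.2.2
    rw [← hp] at h1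
    have h2 := (hal i).lim_sub hC hs
    rw [Function.update_self] at h2
    refine (h1.mono_left h2).mono_right ?_
    exact Set.subset_iUnion (fun i' : {i' // r i' i} => Lim (p i'.1).2) ⟨i', hr⟩
  intro i i' hne
  rcases trichotomous_of (WellOrderingRel (α := I)) i i' with h1 | h1 | h1
  · exact (key i' i h1).symm
  · exact absurd h1 hne
  · exact key i i' h1

/-- The core theorem. -/
theorem core [Nonempty G] (hC : CoreHyp π lam)
    (hs : ∀ U : Set G, IsOpen U → U.Nonempty → s U ∈ U)
    (hw : ∀ U : ℕ → Set G, (∀ n, IsOpen (U n) ∧ (U n).Nonempty) →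
      ∃ x, MapClusterPt x atTop (fun n => s (U n)))
    (I : ℕ → Type u) (hI : ∀ k, #(I k) ≤ lam k) : #(∀ k, I k) ≤ #G := by
  classical
  have hne : ∀ k, Nonempty (M k) := fun k => ⟨π k (Classical.arbitrary G)⟩
  have hfam : ∀ j (h : Hist M), ∃ p : I j → Move M j, Alive π s lam j h →
      (∀ i, Alive π s lam (j + 1) (Function.update h j (p i))) ∧
      ∀ i i', i ≠ i' → Disjoint (Lim (p i).2) (Lim (p i').2) := by
    intro j h
    by_cases ha : Alive π s lam j h
    · obtain ⟨p, h1, h2⟩ := ha.family hC hs (I j) (hI j)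
      exact ⟨p, fun _ => ⟨h1, h2⟩⟩
    · exact ⟨fun _ => Classical.arbitrary _, fun h => absurd h ha⟩
  choose fam hfam1 using hfam
  let h0 : Hist M := fun k => Classical.arbitrary _
  let H : (∀ k, I k) → ℕ → Hist M := fun y j =>
    Nat.rec h0 (fun j h => Function.update h j (fam j h (y j))) j
  have hH : ∀ y j, H y (j + 1) = Function.update (H y j) j (fam j (H y j) (y j)) :=
    fun y j => rfl
  have hal : ∀ y j, Alive π s lam j (H y j) := by
    intro y j
    induction j with
    | zero => exact ⟨isOpen_univ, univ_nonempty, not_winI_zero hC _⟩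
    | succ j ih =>
      rw [hH]
      exact (hfam1 j (H y j) ih).1 (y j)
  have hH2 : ∀ y j m, m < j → H y j m = H y (m + 1) m := by
    intro y j
    induction j with
    | zero => intro m hm; omega
    | succ j ih =>
      intro m hm
      rcases Nat.lt_succ_iff_lt_or_eq.1 hm with h | h
      · rw [hH, Function.update_of_ne h.ne, ih m h]
      · subst h; rfl
  have hH3 : ∀ y m, H y (m + 1) m = fam m (H y m) (y m) := by
    intro y m
    rw [hH, Function.update_self]
  have hH4 : ∀ y y' j, (∀ k < j, y k = y' k) → H y j = H y' j := by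
    intro y y' j
    induction j with
    | zero => intro _; rfl
    | succ j ih =>
      intro hyy
      rw [hH, hH, ih (fun k hk => hyy k (Nat.lt_succ_of_lt hk)), hyy j (Nat.lt_succ_self j)]
  choose ℓ hℓ using fun y => hw (fun j => UU π (H y j) j) (fun j => ⟨(hal y j).1, (hal y j).2.1⟩)
  have hkey : ∀ y m, π m (ℓ y) ∈ Lim (fam m (H y m) (y m)).2 := by
    intro y m
    have h1 : MapClusterPt (π m (ℓ y)) atTop (π m ∘ fun j => s (UU π (H y j) j)) :=
      (hℓ y).continuousAt_comp (hC.cont m).continuousAt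
    have h2 : (π m ∘ fun j => s (UU π (H y j) j)) =ᶠ[atTop] (fam m (H y m) (y m)).2 := by
      filter_upwards [eventually_gt_atTop m] with j hj
      have h3 := (hal y j).matched m hj
      rw [hH2 y j m hj, hH3] at h3
      exact h3
    have h3 : map (π m ∘ fun j => s (UU π (H y j) j)) atTop =
        map (fam m (H y m) (y m)).2 atTop := Filter.map_congr h2
    show ClusterPt _ _
    rw [← h3]
    exact h1
  refine Cardinal.mk_le_of_injective (f := ℓ) ?_
  intro y y' hyy
  by_contra hne'
  have hex : ∃ m, y m ≠ y' m := by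
    by_contra hcon
    push Not at hcon
    exact hne' (funext hcon)
  let m := Nat.find hex
  have hm : y m ≠ y' m := Nat.find_spec hex
  have hm2 : ∀ k < m, y k = y' k := fun k hk => by
    by_contra h
    exact Nat.find_min hex hk h
  have h1 := hkey y m
  have h2 := hkey y' m
  rw [← hH4 y y' m hm2, ← hyy] at h2
  exact Set.disjoint_left.1 ((hfam1 m (H y m) (hal y m)).2 _ _ hm) h1 h2

end core2

end Pool.Agent.T9h66.SW
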