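import Pool.Agent.T9h66.SW.Main

/-!
# The second question: a larger class of groups
-/

set_option autoImplicit false

universe u

namespace Pool.Agent.T9h66.SW

open Cardinal Topology Set Filter Pool.Agent.H376R3.PC

/-- bounded groups and groups whose rank is not much smaller than the cardinality of some
multiple -/
def Deep (G : Type u) [AddCommGroup G] : Prop :=
  (∃ N : ℕ, 0 < N ∧ ∀ x : G, N • x = 0) ∨
  ∃ (N : ℕ) (M : Type u) (e : M → G), 0 < N ∧ LinearIndependent ℤ e ∧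
    𝔠 ≤ #M ∧ #M ^ (ℵ₀ : Cardinal.{u}) = #M ∧
    #(Set.range fun x : G => N • x) ≤ 2 ^ ((2 : Cardinal.{u}) ^ #M)

theorem typeConcl_ult (q : Ultrafilter ℕ) (M B : Type u) (hM : 𝔠 ≤ #M)
    (hM2 : #M ^ (ℵ₀ : Cardinal.{u}) ≤ #M) (hB : #B ≤ 2 ^ ((2 : Cardinal.{u}) ^ #M)) :
    TypeConcl (CUlt q) M B := by
  have h0 : ℵ₀ ≤ #M := Cardinal.aleph0_le_continuum.trans hM
  obtain ⟨D⟩ := exists_base_ult q M #M h0 (by
    rw [Cardinal.mk_arrow]; simpa using hM2) le_rfl hM2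
  have hQ : #(M → Bool) = 2 ^ #M := by simp
  refine typeConcl_of_base (cls_ult _) D ?_ (Cardinal.aleph_one_le_continuum.trans hM) ?_
  · rw [hQ]
    exact (Cardinal.aleph_one_le_continuum.trans hM).trans (Cardinal.cantor _).le
  · rw [hQ]; exact hB

theorem Deep.hasSp {G : Type u} [AddCommGroup G] (hG : Psc G) (hcc : CC G) (h : Deep G) :
    HasSp G := by
  have hA := hG.hypA
  have key : ConclS (CUlt (Filter.hyperfilter ℕ)) G := by
    rcases h with h | ⟨N, M, e, hN, he, hM, hM2, hNG⟩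
    · exact concl_class (cls_ult _) hA hcc (Or.inl h)
    · exact concl_unboundedS (cls_ult _) (hypT_of (cls_ult _) hA hcc) M e N he hN
        (Cardinal.aleph0_le_continuum.trans hM)
        (fun B hB => typeConcl_ult _ M B hM hM2.le (hB.trans hNG))
  obtain ⟨τ, h1, h2, h3⟩ := key
  refine ⟨τ, h1, h2, @winSp_of_winC (Filter.hyperfilter ℕ) ?_ G τ h3⟩
  rw [← Nat.cofinite_eq_atTop]
  exact Filter.hyperfilter_le_cofinite

theorem deep_of_sch (h : SCHc.{u}) {G : Type u} [AddCommGroup G] (hG : Psc G) : Deep G := by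
  by_cases hb : ∃ N : ℕ, 0 < N ∧ ∀ x : G, N • x = 0
  · exact Or.inl hb
  push Not at hb
  obtain ⟨K, _, _, _, _, _, ι, hι, hd⟩ := hG.data
  obtain ⟨M, e, n, J, he, hn, hJ, hM, hcard, hfam⟩ :=
    Pool.Agent.H526R3.PC5.pc5 Pool.Agent.H973R3.PC2.pc2 Pool.Agent.H345R3.PC3.pc3 G K ι hι hd hb
  obtain ⟨μ, hμ1, hμ2, hμ3, hμ4⟩ := injFam_min hfam hM
  obtain ⟨g⟩ : Nonempty (μ.out ↪ M) := by
    rw [← Cardinal.le_def, Cardinal.mk_out]; exact hμ2
  refine Or.inr ⟨n, μ.out, e ∘ g, hn, he.comp g g.injective, ?_, ?_, ?_⟩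
  · rw [Cardinal.mk_out]; exact hμ1
  · rw [Cardinal.mk_out]
    exact le_antisymm (sch_pow h hμ1 hμ4) (Cardinal.self_le_power _ Cardinal.one_le_aleph0)
  · rw [Cardinal.mk_out]
    exact hcard.trans (Cardinal.power_le_power_left two_ne_zero hμ3)

end Pool.Agent.T9h66.SW
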