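import Pool.Agent.T9h66.SW.Core
import Pool.Agent.H345R3.PC3a
import Pool.Agent.H990R4.PC1

/-!
# Stationary winning strategies on groups: small quotients are nowhere small
-/

set_option autoImplicit false

universe u

namespace Pool.Agent.T9h66.SW

open Cardinal Topology Set Filter Pool.Agent.H376R3.PC

/-- A `T2` space with a dense set of `κ` points has at most `2 ^ (2 ^ κ)` points. -/
theorem mk_le_of_dense {Y : Type u} [TopologicalSpace Y] [T2Space Y] (E : Set Y) (hE : Dense E) :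
    #Y ≤ 2 ^ ((2 : Cardinal.{u}) ^ #E) := by
  have hinj : Function.Injective (fun y : Y =>
      ({S : Set E | y ∈ closure (Subtype.val '' S)} : Set (Set E))) := by
    intro x y hxy
    by_contra hne
    obtain ⟨U, V, hU, hV, hxU, hyV, hUV⟩ := t2_separation hne
    have h1 : (Subtype.val ⁻¹' U : Set E) ∈
        ({S : Set E | x ∈ closure (Subtype.val '' S)} : Set (Set E)) := by
      show x ∈ closure (Subtype.val '' (Subtype.val ⁻¹' U : Set E))
      rw [Subtype.image_preimage_coe, mem_closure_iff]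
      intro W hW hxW
      obtain ⟨z, hz1, hz2⟩ := hE.inter_open_nonempty (W ∩ U) (hW.inter hU) ⟨x, hxW, hxU⟩
      exact ⟨z, hz1.1, hz2, hz1.2⟩
    have h2 : (Subtype.val ⁻¹' U : Set E) ∈
        ({S : Set E | y ∈ closure (Subtype.val '' S)} : Set (Set E)) := by
      have := hxy
      simp only at this
      rw [← this]; exact h1
    have h3 : y ∈ closure (Subtype.val '' (Subtype.val ⁻¹' U : Set E)) := h2
    rw [Subtype.image_preimage_coe, mem_closure_iff] at h3
    obtain ⟨z, hz1, hz2⟩ := h3 V hV hyV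
    exact Set.disjoint_left.1 hUV hz2.2 hz1
  have h := Cardinal.mk_le_of_injective hinj
  simpa using h

theorem dens_of {A : Type u} [AddCommGroup A] [TopologicalSpace A] [IsTopologicalAddGroup A]
    [T2Space A] (htb : ∀ U ∈ 𝓝 (0 : A), ∃ t : Set A, t.Finite ∧ ∀ x, ∃ y ∈ t, x - y ∈ U)
    (lam : Cardinal.{u}) (hlam : ℵ₀ ≤ lam) (hA : 2 ^ ((2 : Cardinal.{u}) ^ lam) < #A)
    (O : Set A) (hO : IsOpen O) (hne : O.Nonempty) (E : Set A) (hE : #E ≤ lam) :
    ∃ W ⊆ O, IsOpen W ∧ W.Nonempty ∧ Disjoint (closure W) E := by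
  by_contra hcon
  push Not at hcon
  have hEO : ∀ V ⊆ O, IsOpen V → V.Nonempty → (V ∩ E).Nonempty := by
    intro V hVO hV hVne
    obtain ⟨y, hy⟩ := hVne
    obtain ⟨t, ht1, ht2, ht3⟩ := exists_mem_nhds_isClosed_subset (hV.mem_nhds hy)
    have h1 := hcon (interior t) ((interior_subset.trans ht3).trans hVO) isOpen_interior
      ⟨y, mem_interior_iff_mem_nhds.2 ht1⟩
    rw [Set.not_disjoint_iff] at h1
    obtain ⟨z, hz1, hz2⟩ := h1
    exact ⟨z, ht3 ((closure_minimal interior_subset ht2) hz1), hz2⟩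
  obtain ⟨o, ho⟩ := hne
  have hU : (fun z => z + o) ⁻¹' O ∈ 𝓝 (0 : A) := by
    apply (hO.preimage (by fun_prop : Continuous fun z : A => z + o)).mem_nhds
    simpa using ho
  obtain ⟨t, ht, htc⟩ := htb _ hU
  let E' : Set A := Set.image2 (fun e y => e + (y - o)) E t
  have hdense : Dense E' := by
    rw [dense_iff_inter_open]
    intro V hV hVne
    obtain ⟨x, hx⟩ := hVne
    obtain ⟨y, hy, hxy⟩ := htc x
    have h1 : x - y + o ∈ O := hxy
    have hW : IsOpen ((fun z => z + (y - o)) ⁻¹' V ∩ O) :=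
      (hV.preimage (by fun_prop)).inter hO
    obtain ⟨e, he1, he2⟩ := hEO _ Set.inter_subset_right hW ⟨x - y + o, by
      show x - y + o + (y - o) ∈ V
      have h2 : x - y + o + (y - o) = x := by abel
      rw [h2]; exact hx, h1⟩
    exact ⟨e + (y - o), he1.1, e, he2, y, hy, rfl⟩
  have hE' : #E' ≤ lam := by
    have h1 : E' = ⋃ y : t, (fun e => e + ((y : A) - o)) '' E := by
      ext z
      simp only [E', Set.mem_image2, Set.mem_iUnion, Set.mem_image]
      constructor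
      · rintro ⟨e, he, y, hy, rfl⟩
        exact ⟨⟨y, hy⟩, e, he, rfl⟩
      · rintro ⟨⟨y, hy⟩, e, he, rfl⟩
        exact ⟨e, he, y, hy, rfl⟩
    rw [h1]
    refine (Cardinal.mk_iUnion_le _).trans ?_
    have h2 : ⨆ y : t, #((fun e => e + ((y : A) - o)) '' E) ≤ lam :=
      ciSup_le' fun y => Cardinal.mk_image_le.trans hE
    have h3 : #t ≤ lam := by
      have := ht.to_subtype
      exact (Cardinal.mk_lt_aleph0.le).trans hlam
    exact (mul_le_mul' h3 h2).trans (Cardinal.mul_eq_self hlam).le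
  have h1 := mk_le_of_dense E' hdense
  have h2 : (2 : Cardinal.{u}) ^ ((2 : Cardinal.{u}) ^ #E') ≤ 2 ^ ((2 : Cardinal.{u}) ^ lam) :=
    Cardinal.power_le_power_left two_ne_zero (Cardinal.power_le_power_left two_ne_zero hE')
  exact absurd hA (not_lt.2 (h1.trans h2))

section grp

variable {G : Type u} [AddCommGroup G] [TopologicalSpace G] [IsTopologicalAddGroup G]

/-- In a totally bounded group a `G_δ` set containing `0` has a small set of differences. -/
theorem code_tb (htb : ∀ U ∈ 𝓝 (0 : G), ∃ t : Set G, t.Finite ∧ ∀ x, ∃ y ∈ t, x - y ∈ U)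
    (N : Set G) (hN : IsGδ N) (h0 : (0 : G) ∈ N) :
    ∃ c : G → ℕ → ℕ, ∀ x y, c x = c y → x - y ∈ N := by
  obtain ⟨O, hO, rfl⟩ := isGδ_iff_eq_iInter_nat.1 hN
  have key : ∀ n, ∃ c : G → ℕ, ∀ x y, c x = c y → x - y ∈ O n := by
    intro n
    obtain ⟨W, hWo, hW0, hWs, hWa⟩ :=
      Pool.Agent.H345R3.PC3.exists_half (O n) ((hO n).mem_nhds (mem_iInter.1 h0 n))
    obtain ⟨t, ht, h1⟩ := htb W (hWo.mem_nhds hW0)
    choose g hg1 hg2 using h1
    obtain ⟨f, hf⟩ := Set.countable_iff_exists_injOn.1 ht.countable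
    refine ⟨fun y => f (g y), fun x y hxy => ?_⟩
    have h2 : g x = g y := hf (hg1 x) (hg1 y) hxy
    have h3 : x - y = (x - g x) + -(y - g y) := by rw [h2]; abel
    rw [h3]
    exact hWa _ (hg2 x) _ (hWs _ (hg2 y))
  choose c hc using key
  exact ⟨fun x n => c n x, fun x y hxy => mem_iInter.2 fun n => hc n x y (congrFun hxy n)⟩

/-- closed subgroups with quotients of prescribed size (up to one exponential) -/
theorem exists_quot [T2Space G]
    (htb : ∀ U ∈ 𝓝 (0 : G), ∃ t : Set G, t.Finite ∧ ∀ x, ∃ y ∈ t, x - y ∈ U)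
    (κ : Cardinal.{u}) (hκ0 : ℵ₀ ≤ κ) (hκ : κ ≤ #G) :
    ∃ N : AddSubgroup G, IsClosed (N : Set G) ∧ κ ≤ #(G ⧸ N) ∧ #(G ⧸ N) ≤ 2 ^ κ := by
  classical
  obtain ⟨S, hS⟩ := Cardinal.le_mk_iff_exists_set.1 hκ
  have h1 : ∀ p : S × S, ∃ N : AddSubgroup G, GdSub N ∧ ((p.1 : G) ≠ p.2 → (p.1 : G) - p.2 ∉ N) := by
    intro p
    by_cases h : (p.1 : G) = p.2
    · exact ⟨⊤, Pool.Agent.H345R3.PC3.gdsub_top, fun h' => absurd h h'⟩
    · obtain ⟨N, hN, hx⟩ := Pool.Agent.H345R3.PC3.small_ne ((p.1 : G) - p.2) (sub_ne_zero.2 h)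
      exact ⟨N, hN, fun _ => hx⟩
  choose N hN hN2 using h1
  choose c hc using fun p => code_tb htb (N p : Set G) (hN p).2 (zero_mem (N p))
  refine ⟨⨅ p, N p, ?_, ?_, ?_⟩
  · rw [AddSubgroup.coe_iInf]
    exact isClosed_iInter fun p => (hN p).1
  · rw [← hS]
    refine Cardinal.mk_le_of_injective
      (f := fun x : S => (QuotientAddGroup.mk (x : G) : G ⧸ (⨅ p, N p))) ?_
    intro x y hxy
    by_contra hne
    have h2 : -(x : G) + y ∈ ⨅ p, N p := QuotientAddGroup.eq.1 hxy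
    have h3 : (y : G) - x ∈ N (y, x) := by
      have := AddSubgroup.mem_iInf.1 h2 (y, x)
      rwa [neg_add_eq_sub] at this
    exact hN2 (y, x) (fun h => hne (Subtype.ext h.symm)) h3
  · have hinj : Function.Injective (fun (q : G ⧸ (⨅ p, N p)) (p : S × S) => c p q.out) := by
      intro q q' h
      rw [← QuotientAddGroup.out_eq' q, ← QuotientAddGroup.out_eq' q']
      rw [QuotientAddGroup.eq, neg_add_eq_sub, AddSubgroup.mem_iInf]
      intro p
      exact hc p _ _ (congrFun h p).symm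
    refine (Cardinal.mk_le_of_injective hinj).trans ?_
    have h3 : #(ℕ → ℕ) = 𝔠 := by simp
    rw [Cardinal.mk_arrow, Cardinal.mk_prod, h3]
    simp only [Cardinal.lift_id, Cardinal.lift_uzero]
    rw [hS, Cardinal.mul_eq_self hκ0, Cardinal.lift_continuum,
      ← Cardinal.two_power_aleph0, ← Cardinal.power_mul, Cardinal.aleph0_mul_eq hκ0]

end grp

end Pool.Agent.T9h66.SW
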