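import Pool.Agent.T9h66.SW.Boole

/-!
# The main results on stationary winning strategies
-/

set_option autoImplicit false

universe u

namespace Pool.Agent.T9h66.SW

open Cardinal Topology Set Filter Pool.Agent.H376R3.PC

/-- the set of multiples -/
abbrev mul (G : Type u) [AddCommGroup G] (n : ℕ) : Set G := Set.range fun x : G => n • x

/-- the cardinal condition -/
def CC (G : Type u) [AddCommGroup G] : Prop :=
  ∀ (n : ℕ) (X : Cardinal.{u}), Bad X → X ≤ #(mul G n) → 2 ^ X ≤ #(mul G n)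

/-- there is a pseudocompact group topology -/
def Psc (G : Type u) [AddCommGroup G] : Prop :=
  ∃ τ : TopologicalSpace G, @IsTopologicalAddGroup G τ _ ∧ @T2Space G τ ∧
    ∀ f : G → ℝ, @Continuous _ _ τ _ f → ∃ C : ℝ, ∀ x, |f x| ≤ C

/-- there is a group topology with a stationary winning strategy (convergent subsequences) -/
def HasSsp (G : Type u) [AddCommGroup G] : Prop :=
  ∃ τ : TopologicalSpace G, @IsTopologicalAddGroup G τ _ ∧ @T2Space G τ ∧ @WinSsp G τ

/-- there is a group topology with a stationary winning strategy (accumulation points) -/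
def HasSp (G : Type u) [AddCommGroup G] : Prop :=
  ∃ τ : TopologicalSpace G, @IsTopologicalAddGroup G τ _ ∧ @T2Space G τ ∧ @WinSp G τ

/-- dense sets in the countable box topology of `2 ^ X`, for `X` strong limit of countable
cofinality -/
def Star : Prop :=
  ∀ X : Type u, Bad #X → ∀ L : Set (X → Bool), CD L → 2 ^ #X ≤ #L

theorem HasSsp.hasSp {G : Type u} [AddCommGroup G] (h : HasSsp G) : HasSp G := by
  obtain ⟨τ, h1, h2, h3⟩ := h
  exact ⟨τ, h1, h2, h3.winSp⟩

theorem HasSp.cc {G : Type u} [AddCommGroup G] (h : HasSp G) : CC G := by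
  obtain ⟨τ, h1, h2, h3⟩ := h
  intro n X hX hXG
  exact obstruction_n h3 n X hX hXG

theorem Psc.data {G : Type u} [AddCommGroup G] (h : Psc G) :
    ∃ (K : Type u) (_ : AddCommGroup K) (_ : TopologicalSpace K) (_ : IsTopologicalAddGroup K)
      (_ : CompactSpace K) (_ : T2Space K) (ι : G →+ K),
      Function.Injective ι ∧ GdDense (Set.range ι) := by
  obtain ⟨τ, h1, h2, h3⟩ := h
  exact Pool.Agent.H990R4.PC1.pc1 G h3

theorem Psc.hypA {G : Type u} [AddCommGroup G] (h : Psc G) : HypA G := by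
  obtain ⟨K, _, _, _, _, _, ι, hι, hd⟩ := h.data
  exact hypA_of ι hι hd

theorem typeConcl_tr {𝒞 : Set (Filter ℕ)} (h𝒞 : Cls 𝒞) {N Y M B : Type u} (f : Y → (N → Bool))
    (hf : CtblTraces f) (hN : #(ℕ → N) ≤ #M) (hM : 𝔠 ≤ #M) (hY : ℵ₁ ≤ #Y)
    (hB : #B ≤ 2 ^ #Y) : TypeConcl 𝒞 M B := by
  have hYne : Nonempty Y := by
    rw [← Cardinal.mk_ne_zero_iff]
    intro h
    rw [h] at hY
    exact absurd hY (not_le.2 (Cardinal.aleph_pos 1))
  by_cases hNe : Nonempty N
  · obtain ⟨D⟩ := exists_base_seq h𝒞 f hf #M hN hM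
    exact typeConcl_of_base h𝒞 D hY (Cardinal.aleph_one_le_continuum.trans hM) hB
  · exfalso
    have h1 : IsEmpty N := not_nonempty_iff.1 hNe
    have h2 : Subsingleton Y := ⟨fun y y' => hf.1 (Subsingleton.elim _ _)⟩
    have h3 : #Y ≤ 1 := Cardinal.le_one_iff_subsingleton.2 h2
    have h4 : (ℵ₁ : Cardinal.{u}) ≤ 1 := hY.trans h3
    exact absurd (Cardinal.one_lt_aleph0.trans Cardinal.aleph0_lt_aleph_one) (not_lt.2 h4)

theorem typeConcl_single {𝒞 : Set (Filter ℕ)} (h𝒞 : Cls 𝒞) {κ : Cardinal.{u}} (hκ : 𝔠 ≤ κ)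
    (hbad : ∀ X, Bad X → X ≤ κ → 2 ^ X ≤ κ) (M B : Type u) (hM : #M = κ) (hB : #B ≤ κ) :
    TypeConcl 𝒞 M B := by
  classical
  obtain ⟨J, hJ1, hJ2, hJ3⟩ := exists_J hκ hbad
  refine typeConcl_tr h𝒞 (N := J.out) (Y := J.out) _ (ctblTraces_singletons J.out) ?_ ?_ ?_ ?_
  · rw [Cardinal.mk_arrow, Cardinal.mk_out, hM]
    simpa using hJ3
  · rw [hM]; exact hκ
  · rw [Cardinal.mk_out]; exact hJ1
  · rw [Cardinal.mk_out]; exact hB.trans hJ2

theorem hypT_of {𝒞 : Set (Filter ℕ)} (h𝒞 : Cls 𝒞) {G : Type u} [AddCommGroup G] (hA : HypA G)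
    (hcc : CC G) : HypT 𝒞 G := by
  intro n hn hinf
  obtain ⟨hc, -⟩ := hA n hn hinf
  exact ⟨hc, fun M B hM hB => typeConcl_single h𝒞 hc (fun X hX hXn => hcc n X hX hXn) M B hM hB⟩

/-- the class of groups: bounded groups, and groups with an independent family which is large
with respect to a set of multiples -/
def Large (G : Type u) [AddCommGroup G] : Prop :=
  ∃ (n : ℕ) (M N Y : Type u) (e : M → G) (f : Y → (N → Bool)), 0 < n ∧ LinearIndependent ℤ e ∧
    CtblTraces f ∧ #(ℕ → N) ≤ #M ∧ 𝔠 ≤ #M ∧ ℵ₁ ≤ #Y ∧ #(mul G n) ≤ 2 ^ #Y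

theorem concl_large {𝒞 : Set (Filter ℕ)} (h𝒞 : Cls 𝒞) {G : Type u} [AddCommGroup G] (hA : HypA G)
    (hcc : CC G) (hl : Large G) : ConclS 𝒞 G := by
  obtain ⟨n, M, N, Y, e, f, hn, he, hf, hN, hM, hY, hnG⟩ := hl
  exact concl_unboundedS h𝒞 (hypT_of h𝒞 hA hcc) M e n he hn
    (Cardinal.aleph0_le_continuum.trans hM)
    (fun B hB => typeConcl_tr h𝒞 f hf hN hM hY (hB.trans hnG))

/-- the class of groups -/
def Class (G : Type u) [AddCommGroup G] : Prop :=
  (∃ N : ℕ, 0 < N ∧ ∀ x : G, N • x = 0) ∨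
  (∃ (N : ℕ) (M : Type u) (e : M → G), 0 < N ∧ LinearIndependent ℤ e ∧ #(mul G N) ≤ #M) ∨
  Large G

theorem concl_class {𝒞 : Set (Filter ℕ)} (h𝒞 : Cls 𝒞) {G : Type u} [AddCommGroup G] (hA : HypA G)
    (hcc : CC G) (hcl : Class G) : ConclS 𝒞 G := by
  by_cases hb : ∃ N : ℕ, 0 < N ∧ ∀ x : G, N • x = 0
  · obtain ⟨N, hN, hb⟩ := hb
    exact concl_boundedS h𝒞 (hypT_of h𝒞 hA hcc) N hN hb
  rcases hcl with h | ⟨N, M, e, hN, he, hle⟩ | h
  · exact absurd h hb
  · have hne : Nonempty M := by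
      by_contra hne
      rw [not_nonempty_iff] at hne
      have h1 : #M = 0 := by simp
      rw [h1] at hle
      have h2 : #(mul G N) ≠ 0 := by
        rw [Cardinal.mk_ne_zero_iff]
        exact ⟨⟨0, 0, by simp⟩⟩
      exact h2 (le_antisymm hle (zero_le))
    obtain ⟨m⟩ := hne
    have hinj : Function.Injective fun m => N • e m := by
      intro a b hab
      have h1 : N • e a = N • e b := hab
      have h2 := he.injective
      by_contra hne
      have h3 := linearIndependent_iff.1 he (Finsupp.single a (N : ℤ) - Finsupp.single b (N : ℤ))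
        (by
          rw [map_sub, Finsupp.linearCombination_single, Finsupp.linearCombination_single,
            natCast_zsmul, natCast_zsmul, h1, sub_self])
      have h4 := DFunLike.congr_fun h3 a
      rw [Finsupp.sub_apply, Finsupp.single_eq_same, Finsupp.single_eq_of_ne hne] at h4
      simp only [sub_zero, Finsupp.coe_zero, Pi.zero_apply] at h4
      exact hN.ne' (by exact_mod_cast h4)
    have hle2 : #M ≤ #(mul G N) :=
      Cardinal.mk_le_of_injective (f := fun m => ⟨N • e m, e m, rfl⟩) (by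
        intro a b hab
        exact hinj (congrArg Subtype.val hab))
    have heq : #M = #(mul G N) := le_antisymm hle2 hle
    have hinf : (Set.range fun x : G => N • x).Infinite := by
      have h1 : Function.Injective fun k : ℤ => N • (k • e m) := by
        intro k l hkl
        have h2 : (N : ℤ) • k • e m = (N : ℤ) • l • e m := by
          rw [natCast_zsmul, natCast_zsmul]; exact hkl
        rw [smul_smul, smul_smul] at h2
        have h3 := linearIndependent_iff.1 he
          (Finsupp.single m ((N : ℤ) * k) - Finsupp.single m ((N : ℤ) * l)) (by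
            rw [map_sub, Finsupp.linearCombination_single, Finsupp.linearCombination_single, h2,
              sub_self])
        have h4 := DFunLike.congr_fun h3 m
        simp only [Finsupp.sub_apply, Finsupp.single_eq_same, Finsupp.coe_zero,
          Pi.zero_apply] at h4
        have h5 : (N : ℤ) * k = N * l := by linarith
        exact mul_left_cancel₀ (by exact_mod_cast hN.ne') h5
      refine (Set.infinite_range_of_injective h1).mono ?_
      rintro _ ⟨k, rfl⟩
      exact ⟨k • e m, rfl⟩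
    have hc := (hA N hN hinf).1
    refine concl_unboundedS h𝒞 (hypT_of h𝒞 hA hcc) M e N he hN
      (by rw [heq]; exact Cardinal.aleph0_le_continuum.trans hc) ?_
    intro B hB
    exact typeConcl_single h𝒞 (κ := #(mul G N)) hc (fun X hX hXn => hcc N X hX hXn) M B heq hB
  · exact concl_large h𝒞 hA hcc h

theorem hasSsp_class {G : Type u} [AddCommGroup G] (h : Psc G) (hcc : CC G) (hcl : Class G) :
    HasSsp G := by
  obtain ⟨τ, h1, h2, h3⟩ := concl_class cls_seq h.hypA hcc hcl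
  exact ⟨τ, h1, h2, @winSsp_of_winC G τ h3⟩

theorem cc_of_star (hs : Star.{u}) {G : Type u} [AddCommGroup G] (hA : HypA G) : CC G := by
  intro n X hX hXn
  have hinf : (Set.range fun x : G => n • x).Infinite := by
    rw [← Set.infinite_coe_iff, Cardinal.infinite_iff]
    exact hX.2.1.le.trans hXn
  have hn : 0 < n := by
    rcases Nat.eq_zero_or_pos n with rfl | h
    · exfalso
      apply hinf
      refine (Set.finite_singleton (0 : G)).subset ?_
      rintro _ ⟨x, rfl⟩
      simp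
    · exact h
  obtain ⟨hc, J, hJ1, hJ2, hJ3⟩ := hA n hn hinf
  have hXJ : X ≤ #J := by
    by_contra hlt
    have h1 := hX.1.isStrongPrelimit (not_le.1 hlt)
    exact absurd (hXn.trans hJ2) (not_le.2 h1)
  obtain ⟨L, hL1, hL2⟩ := injFam_dense (X := X.out) hJ3 hc (by rw [Cardinal.mk_out]; exact hXJ)
  have h2 := hs X.out (by rw [Cardinal.mk_out]; exact hX) L hL1
  rw [Cardinal.mk_out] at h2
  exact h2.trans hL2

theorem star_of_hasSp (h : ∀ (G : Type u) [AddCommGroup G], (∀ x : G, x + x = 0) → Psc G →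
    HasSp G) : Star.{u} := by
  intro X hX L hL
  by_contra hlt
  obtain ⟨G, _, h1, h2, h3⟩ := counterexample hX L hL hlt
  obtain ⟨τ, h4, h5, h6⟩ := h G h1 h2
  exact h3 τ h4 h5 h6

theorem sch_star (h : SCHc.{u}) : Star.{u} := fun X hX L hL => star_of_sch h X hX L hL

/-- many subsets with countable traces -/
def KH : Prop := ∀ μ : Cardinal.{u}, 𝔠 ≤ μ → μ ^ (ℵ₀ : Cardinal.{u}) = μ →
  ∃ (N Y : Type u) (f : Y → (N → Bool)), CtblTraces f ∧ #N = μ ∧ #Y = 2 ^ μ

/-- the general scheme under the singular cardinals hypothesis -/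
theorem sch_scheme (h : SCHc.{u}) {𝒞 : Set (Filter ℕ)} (h𝒞 : Cls 𝒞)
    (hT : ∀ (M B : Type u), 𝔠 ≤ #M → #M ^ (ℵ₀ : Cardinal.{u}) ≤ #M → #B ≤ 2 ^ ((2 : Cardinal.{u}) ^ #M) →
      TypeConcl 𝒞 M B) {G : Type u} [AddCommGroup G] (hG : Psc G) : ConclS 𝒞 G := by
  have hA := hG.hypA
  have hcc := cc_of_star (sch_star h) hA
  by_cases hb : ∃ N : ℕ, 0 < N ∧ ∀ x : G, N • x = 0
  · exact concl_class h𝒞 hA hcc (Or.inl hb)
  push Not at hb
  obtain ⟨K, _, _, _, _, _, ι, hι, hd⟩ := hG.data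
  obtain ⟨M, e, n, J, he, hn, hJ, hM, hcard, hfam⟩ :=
    Pool.Agent.H526R3.PC5.pc5 Pool.Agent.H973R3.PC2.pc2 Pool.Agent.H345R3.PC3.pc3 G K ι hι hd hb
  obtain ⟨μ, hμ1, hμ2, hμ3, hμ4⟩ := injFam_min hfam hM
  obtain ⟨g⟩ : Nonempty (μ.out ↪ M) := by
    rw [← Cardinal.le_def, Cardinal.mk_out]; exact hμ2
  refine concl_unboundedS h𝒞 (hypT_of h𝒞 hA hcc) μ.out (e ∘ g) n (he.comp g g.injective) hn
    (by rw [Cardinal.mk_out]; exact Cardinal.aleph0_le_continuum.trans hμ1) ?_
  intro B hB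
  refine hT μ.out B (by rw [Cardinal.mk_out]; exact hμ1) ?_ ?_
  · rw [Cardinal.mk_out]; exact sch_pow h hμ1 hμ4
  · rw [Cardinal.mk_out]
    exact (hB.trans hcard).trans (Cardinal.power_le_power_left two_ne_zero hμ3)

theorem sch_hasSp (h : SCHc.{u}) {G : Type u} [AddCommGroup G] (hG : Psc G) : HasSp G := by
  obtain ⟨τ, h1, h2, h3⟩ := sch_scheme h (cls_ult (Filter.hyperfilter ℕ)) (fun M B hM hM2 hB => by
    have h0 : ℵ₀ ≤ #M := Cardinal.aleph0_le_continuum.trans hM
    obtain ⟨D⟩ := exists_base_ult (Filter.hyperfilter ℕ) M #M h0 (by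
      rw [Cardinal.mk_arrow]; simpa using hM2) le_rfl hM2
    have hQ : #(M → Bool) = 2 ^ #M := by simp
    refine typeConcl_of_base (cls_ult _) D ?_ (Cardinal.aleph_one_le_continuum.trans hM) ?_
    · rw [hQ]
      exact (Cardinal.aleph_one_le_continuum.trans hM).trans (Cardinal.cantor _).le
    · rw [hQ]; exact hB) hG
  refine ⟨τ, h1, h2, @winSp_of_winC (Filter.hyperfilter ℕ) ?_ G τ h3⟩
  rw [← Nat.cofinite_eq_atTop]
  exact Filter.hyperfilter_le_cofinite

theorem sch_hasSsp (h : SCHc.{u}) (hK : KH.{u}) {G : Type u} [AddCommGroup G] (hG : Psc G) :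
    HasSsp G := by
  obtain ⟨τ, h1, h2, h3⟩ := sch_scheme h cls_seq (fun M B hM hM2 hB => by
    obtain ⟨N, Y, f, hf, hN, hY⟩ := hK #M hM (le_antisymm hM2
      (Cardinal.self_le_power _ Cardinal.one_le_aleph0))
    refine typeConcl_tr cls_seq f hf ?_ hM ?_ ?_
    · rw [Cardinal.mk_arrow]
      simp only [Cardinal.mk_nat, Cardinal.lift_aleph0, Cardinal.lift_uzero]
      rw [hN]; exact hM2
    · rw [hY]
      exact (Cardinal.aleph_one_le_continuum.trans hM).trans (Cardinal.cantor _).le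
    · rw [hY]; exact hB) hG
  exact ⟨τ, h1, h2, @winSsp_of_winC G τ h3⟩

end Pool.Agent.T9h66.SW
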