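import Pool.Agent.T9h66.SW.Grp
import Pool.Agent.T9h66.SW.Card

/-!
# Stationary winning strategies on groups: the obstruction
-/

set_option autoImplicit false

universe u

namespace Pool.Agent.T9h66.SW

open Cardinal Topology Set Filter Pool.Agent.H376R3.PC

/-- the player has a stationary strategy with accumulation points -/
def WinSp (X : Type u) [TopologicalSpace X] : Prop :=
  ∃ s : Set X → X, (∀ U : Set X, IsOpen U → U.Nonempty → s U ∈ U) ∧
    ∀ U : ℕ → Set X, (∀ n, IsOpen (U n) ∧ (U n).Nonempty) →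
      ∃ x, MapClusterPt x atTop (fun n => s (U n))

theorem WinSp.pseudocompact {X : Type u} [TopologicalSpace X] (h : WinSp X) (f : X → ℝ)
    (hf : Continuous f) : ∃ C : ℝ, ∀ x, |f x| ≤ C := by
  obtain ⟨s, hs, hw⟩ := h
  by_contra hcon
  push Not at hcon
  have hU : ∀ n : ℕ, IsOpen {x | (n : ℝ) < |f x|} ∧ {x | (n : ℝ) < |f x|}.Nonempty :=
    fun n => ⟨isOpen_lt continuous_const hf.abs, hcon n⟩
  obtain ⟨x, hx⟩ := hw (fun n => {x | (n : ℝ) < |f x|}) hU
  have h1 : {y | |f y| < |f x| + 1} ∈ 𝓝 x :=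
    (isOpen_lt hf.abs continuous_const).mem_nhds (by
      show |f x| < |f x| + 1
      linarith)
  have h2 := mapClusterPt_iff_frequently.1 hx _ h1
  obtain ⟨N, hN⟩ := exists_nat_gt (|f x| + 1)
  obtain ⟨n, hn1, hn2⟩ := Filter.frequently_atTop.1 h2 N
  have h3 : (n : ℝ) < |f (s {x | (n : ℝ) < |f x|})| := hs _ (hU n).1 (hU n).2
  have h4 : |f (s {x | (n : ℝ) < |f x|})| < |f x| + 1 := hn2
  have h5 : (N : ℝ) ≤ n := by exact_mod_cast hn1
  linarith

/-- A `T2` abelian group with a stationary winning strategy (accumulation points) and at least `X`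
elements has at least `2 ^ X` elements, if `X` is an uncountable strong limit cardinal of countable
cofinality. -/
theorem obstruction {G : Type u} [AddCommGroup G] [TopologicalSpace G] [IsTopologicalAddGroup G]
    [T2Space G] (hW : WinSp G) (X : Cardinal.{u}) (hX : Cardinal.IsStrongLimit X) (hX0 : ℵ₀ < X)
    (hcof : CtblCof X) (hXG : X ≤ #G) : 2 ^ X ≤ #G := by
  classical
  have htb := Pool.Agent.H990R4.PC1.exists_cover (G := G) hW.pseudocompact
  obtain ⟨s, hs, hw⟩ := hW
  obtain ⟨a, ha, ha2⟩ := hcof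
  have h2 : ∀ c < X, (2 : Cardinal.{u}) ^ c < X := fun c hc => hX.two_power_lt hc
  let K : Cardinal.{u} → Cardinal.{u} := fun l => Order.succ (2 ^ ((2 : Cardinal.{u}) ^ l))
  have hK : ∀ c < X, K c < X := fun c hc => hX.isSuccLimit.succ_lt (h2 _ (h2 _ hc))
  have hK2 : ∀ c, c < K c := fun c =>
    ((Cardinal.cantor c).trans (Cardinal.cantor _)).trans (Order.lt_succ _)
  let L : ℕ → Cardinal.{u} := fun n => Nat.rec (2 ^ ((2 : Cardinal.{u}) ^ ℵ₀))
    (fun n l => max (2 ^ (K l)) (2 ^ (a n))) n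
  have hL0 : L 0 = 2 ^ ((2 : Cardinal.{u}) ^ ℵ₀) := rfl
  have hLs : ∀ n, L (n + 1) = max (2 ^ (K (L n))) (2 ^ (a n)) := fun n => rfl
  have hLX : ∀ n, L n < X := by
    intro n
    induction n with
    | zero => exact h2 _ (h2 _ hX0)
    | succ n ih =>
      rw [hLs]
      exact max_lt (h2 _ (hK _ ih)) (h2 _ (ha n))
  have hLstep : ∀ n, L n ≤ L (n + 1) := by
    intro n
    rw [hLs]
    exact ((hK2 _).trans (Cardinal.cantor _)).le.trans (le_max_left _ _)
  have hLm : Monotone L := monotone_nat_of_le_succ hLstep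
  have hLbig : ∀ n, (2 : Cardinal.{u}) ^ ((2 : Cardinal.{u}) ^ ℵ₀) ≤ L n := fun n =>
    hL0 ▸ hLm (Nat.zero_le n)
  have hLinf : ∀ n, ℵ₀ ≤ L n := fun n =>
    ((Cardinal.cantor _).trans (Cardinal.cantor _)).le.trans (hLbig n)
  have hKinf : ∀ n, ℵ₀ ≤ K (L n) := fun n => (hLinf n).trans (hK2 _).le
  choose N hNc hN1 hN2 using fun n => exists_quot htb (K (L n)) (hKinf n)
    ((hK _ (hLX n)).le.trans hXG)
  have hcl : ∀ n, IsClosed (N n : Set G) := hNc
  let π : ∀ n, G → G ⧸ N n := fun n x => QuotientAddGroup.mk x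
  have hC : CoreHyp π L := by
    refine ⟨fun k => ?_, fun k => ?_, fun k => ?_, fun k => ?_, hLinf, hLbig, hLm, fun k => ?_⟩
    · exact QuotientAddGroup.continuous_mk
    · exact QuotientAddGroup.isOpenMap_coe
    · have := hcl k
      infer_instance
    · have := hcl k
      intro O hO hne E hE
      refine dens_of ?_ (L k) (hLinf k) ?_ O hO hne E hE
      · intro U hU
        obtain ⟨t, ht, htc⟩ := htb ((QuotientAddGroup.mk : G → G ⧸ N k) ⁻¹' U)
          (QuotientAddGroup.continuous_mk.continuousAt.preimage_mem_nhds (by simpa using hU))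
        refine ⟨(QuotientAddGroup.mk : G → G ⧸ N k) '' t, ht.image _, ?_⟩
        intro x
        obtain ⟨x, rfl⟩ := QuotientAddGroup.mk_surjective x
        obtain ⟨y, hy, hxy⟩ := htc x
        exact ⟨QuotientAddGroup.mk y, ⟨y, hy, rfl⟩, hxy⟩
      · exact (Order.lt_succ _).trans_le (hN1 k)
    · have h3 : #(ℕ → G ⧸ N k) ≤ 2 ^ (K (L k)) := by
        rw [Cardinal.mk_arrow]
        simp only [Cardinal.mk_nat, Cardinal.lift_aleph0, Cardinal.lift_uzero]
        calc #(G ⧸ N k) ^ ℵ₀ ≤ (2 ^ (K (L k))) ^ ℵ₀ := Cardinal.power_le_power_right (hN2 k)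
          _ = 2 ^ (K (L k)) := by
            rw [← Cardinal.power_mul, Cardinal.mul_aleph0_eq (hKinf k)]
      rw [hLs]
      exact h3.trans (le_max_left _ _)
  let I : ℕ → Type u := fun n => Nat.rec PUnit.{u+1} (fun n _ => Set (a n).out) n
  have hI : ∀ k, #(I k) ≤ L k := by
    intro k
    cases k with
    | zero =>
      show #(PUnit.{u+1}) ≤ L 0
      rw [Cardinal.mk_punit]
      exact Cardinal.one_lt_aleph0.le.trans (hLinf 0)
    | succ k =>
      show #(Set (a k).out) ≤ L (k + 1)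
      rw [hLs, Cardinal.mk_set, Cardinal.mk_out]
      exact le_max_right _ _
  have hne : Nonempty G := ⟨0⟩
  have h3 := core hC hs hw I hI
  refine le_trans ?_ h3
  refine (two_power_le_prod hX ha2).trans ?_
  refine Cardinal.mk_le_of_injective (f := fun (f : ∀ n, Set (a n).out) (k : ℕ) =>
    (Nat.rec PUnit.unit (fun n _ => f n) k : I k)) ?_
  intro f g hfg
  funext n
  exact congrFun hfg (n + 1)

end Pool.Agent.T9h66.SW
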