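import Pool.Agent.T9h66.SW.Main

/-!
# Wide groups
-/

set_option autoImplicit false

universe u

namespace Pool.Agent.T9h66.SW

open Cardinal Topology Set Filter Pool.Agent.H376R3.PC

/-- bounded groups and groups with many independent elements -/
def Wide (G : Type u) [AddCommGroup G] : Prop :=
  (∃ N : ℕ, 0 < N ∧ ∀ x : G, N • x = 0) ∨
  ∃ (N : ℕ) (M : Type u) (e : M → G), 0 < N ∧ LinearIndependent ℤ e ∧
    (#(Set.range fun x : G => N • x) ≤ #M ∨
      ∃ J : Cardinal.{u}, ℵ₁ ≤ J ∧ #(Set.range fun x : G => N • x) ≤ 2 ^ J ∧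
        J ^ (ℵ₀ : Cardinal.{u}) ≤ #M)

theorem Wide.cls {G : Type u} [AddCommGroup G] (h : Wide G) : Class G := by
  classical
  rcases h with h | ⟨N, M, e, hN, he, h | ⟨J, hJ, hJ2, hJ3⟩⟩
  · exact Or.inl h
  · exact Or.inr (Or.inl ⟨N, M, e, hN, he, h⟩)
  · refine Or.inr (Or.inr ⟨N, M, J.out, J.out, e, _, hN, he, ctblTraces_singletons J.out,
      ?_, ?_, ?_, ?_⟩)
    · rw [Cardinal.mk_arrow, Cardinal.mk_out]
      simpa using hJ3
    · refine le_trans ?_ hJ3
      rw [← Cardinal.two_power_aleph0]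
      apply Cardinal.power_le_power_right
      exact ((Cardinal.natCast_lt_aleph0 (n := 2)).le.trans Cardinal.aleph0_lt_aleph_one.le).trans hJ
    · rw [Cardinal.mk_out]; exact hJ
    · rw [Cardinal.mk_out]; exact hJ2

end Pool.Agent.T9h66.SW
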